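import Pool.Agent.Helper446.CB.Hier

/-!
The lattice of r.e. sets: splittings, computable sets, atoms of the lattice of supersets.
-/

namespace Pool.Agent.Helper446.EL

open Pool.Agent.Helper446.RE Pool.Agent.Helper446.CB

/-- `X` is r.e. -/
def Re (X : Set ℕ) : Prop := REPred fun n => n ∈ X

/-- `X` is computable. -/
def Rec (X : Set ℕ) : Prop := ComputablePred fun n => n ∈ X

/-- The `e`-th r.e. set. -/
def W (e : ℕ) : Set ℕ := {x | ∃ s, wst ℕ e s x = true}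

/-- `X` is one half of a splitting of `A` into two disjoint r.e. sets. -/
def Spl (A X : Set ℕ) : Prop := Re X ∧ ∃ Y, Re Y ∧ X ∪ Y = A ∧ X ∩ Y = ∅

/-- The coded ideal: `X ∩ D` is contained in a computable subset of `A`. -/
def Jd (A D X : Set ℕ) : Prop := ∃ S, Rec S ∧ S ⊆ A ∧ X ∩ D ⊆ S

/-- The second coded ideal. -/
def Zd (A D₁ D₂ R : Set ℕ) : Prop :=
  ∃ U, Spl A U ∧ (∀ X, Spl A X → X ⊆ R → X ∩ U = ∅ → Jd A D₁ X) ∧
    ∀ V, Spl A V → V ⊆ U → Jd A D₁ V → Jd A D₂ V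

/-- `R` is an atom modulo `A` and finite sets. -/
def AtomOf (A R : Set ℕ) : Prop :=
  Rec R ∧ ¬ (R \ A).Finite ∧ ∀ R', Rec R' → R' ⊆ R → (R' \ A).Finite ∨ ((R \ R') \ A).Finite

/-- Every r.e. superset of `A` has a complement over `A`. -/
def BoolSup (A : Set ℕ) : Prop :=
  ∀ W, Re W → A ⊆ W → ∃ V, Re V ∧ A ⊆ V ∧ W ∪ V = Set.univ ∧ W ∩ V = A

/-- `R` is, modulo `A` and finite sets, contained in a finite union of atoms. -/
def Iat (A R : Set ℕ) : Prop :=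
  ∃ L : List (Set ℕ), (∀ a ∈ L, AtomOf A a) ∧ ((R \ A) \ {x | ∃ a ∈ L, x ∈ a}).Finite

end Pool.Agent.Helper446.EL
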