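import Pool.Agent.Helper446.Comp
import Pool.Agent.Helper446.EL.Basic


namespace Pool.Agent.Helper446.EL.C3

open Pool.Agent.Helper446.RE Pool.Agent.Helper446.CB Pool.Agent.Helper446.EL


open Encodable

/-- Normal form of a `Σ⁰₃` predicate on pairs. -/
theorem sig3_nf {P : ℕ × ℕ → Prop} (hP : Sig 3 P) :
    ∃ Q : (ℕ × ℕ) × ℕ → Prop, ComputablePred Q ∧
      ∀ p : ℕ × ℕ, P p ↔ ∃ j, ∀ m, ∃ t, Q ((Nat.pair (Nat.pair p.1 p.2) j, m), t) := by
  obtain ⟨q1, ⟨q2, ⟨q3, h3, h23⟩, h12⟩, h01⟩ := hP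
  have h3' : ComputablePred fun x => ¬ q3 x := ComputablePred.not h3
  refine ⟨fun x => ¬ q3 ((((x.1.1.unpair.1.unpair.1, x.1.1.unpair.1.unpair.2), x.1.1.unpair.2),
    x.1.2), x.2), ?_, fun p => ?_⟩
  · exact RE.cp_comp h3' (f := fun x : (ℕ × ℕ) × ℕ =>
      ((((x.1.1.unpair.1.unpair.1, x.1.1.unpair.1.unpair.2), x.1.1.unpair.2), x.1.2), x.2))
      (by fun_prop)
  · rw [h01]
    refine exists_congr fun j => ?_
    rw [h12]
    push Not
    refine forall_congr' fun m => ?_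
    rw [h23]
    simp only [Nat.unpair_pair]

/-- A finite set is computable. -/
theorem rec_finite {F : Set ℕ} (hF : F.Finite) : Rec F := by
  obtain ⟨l, hl⟩ : ∃ l : List ℕ, ∀ x, x ∈ F ↔ x ∈ l := by
    refine ⟨hF.toFinset.toList, fun x => ?_⟩
    simp
  have h : ComputablePred fun x : ℕ => x ∈ l :=
    cp_mem (f := fun x : ℕ => x) (l := fun _ : ℕ => l) (by fun_prop) (by fun_prop)
  refine h.of_eq fun x => ?_
  exact (hl x).symm

theorem re_inter {X Y : Set ℕ} (hX : Re X) (hY : Re Y) : Re (X ∩ Y) := RE.and hX hY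

theorem re_union {X Y : Set ℕ} (hX : Re X) (hY : Re Y) : Re (X ∪ Y) := RE.or hX hY

theorem rec_union {X Y : Set ℕ} (hX : Rec X) (hY : Rec Y) : Rec (X ∪ Y) := cp_or hX hY

theorem re_W (e : ℕ) : Re (W e) := wst_re e

theorem exists_W {X : Set ℕ} (hX : Re X) : ∃ e, W e = X := by
  obtain ⟨e, he⟩ := wst_univ hX
  exact ⟨e, Set.ext fun x => (he x).symm⟩

theorem spl_union {A X Y : Set ℕ} (hX : Spl A X) (hY : Spl A Y) : Spl A (X ∪ Y) := by
  obtain ⟨h1, X', h2, h3, h4⟩ := hX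
  obtain ⟨h5, Y', h6, h7, h8⟩ := hY
  refine ⟨re_union h1 h5, X' ∩ Y', re_inter h2 h6, ?_, ?_⟩
  · ext x
    have e1 := Set.ext_iff.1 h3 x
    have e2 := Set.ext_iff.1 h7 x
    simp only [Set.mem_union, Set.mem_inter_iff] at *
    tauto
  · ext x
    have e1 := Set.ext_iff.1 h4 x
    have e2 := Set.ext_iff.1 h8 x
    simp only [Set.mem_union, Set.mem_inter_iff, Set.mem_empty_iff_false] at *
    tauto

theorem spl_diff {A X U V : Set ℕ} (hX : Spl A X) (hU : Re U) (hV : Re V) (h1 : U ∪ V = A)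
    (h2 : U ∩ V = ∅) : Spl A (X \ U) := by
  obtain ⟨h3, X', h4, h5, h6⟩ := hX
  have h7 : X \ U = X ∩ V := by
    ext x
    have e1 := Set.ext_iff.1 h1 x
    have e2 := Set.ext_iff.1 h2 x
    have e3 := Set.ext_iff.1 h5 x
    simp only [Set.mem_union, Set.mem_inter_iff, Set.mem_empty_iff_false, Set.mem_sdiff] at *
    tauto
  refine ⟨h7 ▸ re_inter h3 hV, X' ∪ U, re_union h4 hU, ?_, ?_⟩
  · ext x
    have e1 := Set.ext_iff.1 h1 x
    have e2 := Set.ext_iff.1 h2 x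
    have e3 := Set.ext_iff.1 h5 x
    simp only [Set.mem_union, Set.mem_inter_iff, Set.mem_empty_iff_false, Set.mem_sdiff] at *
    tauto
  · ext x
    have e2 := Set.ext_iff.1 h6 x
    simp only [Set.mem_union, Set.mem_inter_iff, Set.mem_empty_iff_false, Set.mem_sdiff] at *
    tauto

theorem spl_rec {A S : Set ℕ} (hA : Re A) (hS : Rec S) (hSA : S ⊆ A) : Spl A S := by
  refine ⟨hS.to_re, A ∩ Sᶜ, re_inter hA (ComputablePred.not hS).to_re, ?_, ?_⟩
  · ext x
    have := @hSA x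
    simp only [Set.mem_union, Set.mem_inter_iff, Set.mem_compl_iff]
    tauto
  · ext x
    simp only [Set.mem_inter_iff, Set.mem_compl_iff, Set.mem_empty_iff_false]
    tauto

section constr

variable (Q : (ℕ × ℕ) × ℕ → Prop) (e0 : ℕ)

/-- The witness `k` looks true up to `x` at stage `s`. -/
def Big (k x s : ℕ) : Prop := ∀ m < x, ∃ t < s, Q ((k, m), t)

/-- The witness `k` is true. -/
def Tr (k : ℕ) : Prop := ∀ m, ∃ t, Q ((k, m), t)

theorem Big.mono {k x s s' : ℕ} (h : s ≤ s') (hb : Big Q k x s) : Big Q k x s' := by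
  intro m hm
  obtain ⟨t, ht, hq⟩ := hb m hm
  exact ⟨t, lt_of_lt_of_le ht h, hq⟩

theorem Tr.big {k : ℕ} (h : Tr Q k) (x : ℕ) : ∃ s, Big Q k x s := by
  choose f hf using h
  refine ⟨(Finset.range x).sup f + 1, fun m hm => ⟨f m, ?_, hf m⟩⟩
  exact Nat.lt_succ_of_le (Finset.le_sup (f := f) (Finset.mem_range.2 hm))

/-- The condition for `x` to be put into `D` for the sake of `i` at stage `s`. -/
def Ok (i x s : ℕ) : Prop :=
  (i ≤ s ∧ wst ℕ e0 s x = true ∧ wst ℕ i.unpair.1 s x = true ∧ wst ℕ i.unpair.2 s x = true) ∧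
    ∀ k < i, (wst ℕ k.unpair.1.unpair.2 s x = true ∨ ¬ Big Q k x s)

/-- `(x, s)` is the least pair which is good for `i`. -/
def Lst (i x s : ℕ) : Prop :=
  Ok Q e0 i x s ∧ ∀ w < Nat.pair x s, ¬ Ok Q e0 i w.unpair.1 w.unpair.2

theorem Lst.unique {i x s x' s' : ℕ} (h : Lst Q e0 i x s) (h' : Lst Q e0 i x' s') : x = x' := by
  have h1 : Nat.pair x s = Nat.pair x' s' := by
    rcases lt_trichotomy (Nat.pair x s) (Nat.pair x' s') with h2 | h2 | h2
    · exact absurd h.1 (by simpa using h'.2 _ h2)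
    · exact h2
    · exact absurd h'.1 (by simpa using h.2 _ h2)
  exact (Nat.pair_eq_pair.1 h1).1

theorem exists_lst {i x s : ℕ} (h : Ok Q e0 i x s) : ∃ x' s', Lst Q e0 i x' s' := by
  classical
  have hex : ∃ w : ℕ, Ok Q e0 i w.unpair.1 w.unpair.2 := ⟨Nat.pair x s, by simpa using h⟩
  refine ⟨(Nat.find hex).unpair.1, (Nat.find hex).unpair.2, Nat.find_spec hex, fun w hw => ?_⟩
  rw [Nat.pair_unpair] at hw
  exact Nat.find_min hex hw

/-- The coding set. -/
def DD : Set ℕ := {y | ∃ i s, Lst Q e0 i y s}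

variable {Q}

theorem cp_wst {f g h : (ℕ × ℕ) × ℕ → ℕ} (hf : Computable f) (hg : Computable g)
    (hh : Computable h) : ComputablePred fun x => wst ℕ (f x) (g x) (h x) = true := by
  refine RE.cp_eq ?_ (Computable.const true)
  exact wst_comp.comp (f := fun p : (ℕ × ℕ) × ℕ => wst ℕ p.1.1 p.1.2 p.2)
    (g := fun x => ((f x, g x), h x)) (by fun_prop)

theorem cp_wst4 {f g h : ((ℕ × ℕ) × ℕ) × ℕ → ℕ} (hf : Computable f) (hg : Computable g)
    (hh : Computable h) : ComputablePred fun x => wst ℕ (f x) (g x) (h x) = true := by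
  refine RE.cp_eq ?_ (Computable.const true)
  exact wst_comp.comp (f := fun p : (ℕ × ℕ) × ℕ => wst ℕ p.1.1 p.1.2 p.2)
    (g := fun x => ((f x, g x), h x)) (by fun_prop)

theorem cp_all_lt {α : Type} [Primcodable α] {p : α → ℕ → Prop}
    (hp : ComputablePred fun x : α × ℕ => p x.1 x.2)
    {f : α → ℕ} (hf : Computable f) : ComputablePred fun a => ∀ i < f a, p a i :=
  Sig.all_lt (n := 0) hp hf

theorem cp_ex_lt {α : Type} [Primcodable α] {p : α → ℕ → Prop}
    (hp : ComputablePred fun x : α × ℕ => p x.1 x.2)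
    {f : α → ℕ} (hf : Computable f) : ComputablePred fun a => ∃ i < f a, p a i :=
  Sig.ex_lt (n := 0) hp hf

theorem cp_Big (hQ : ComputablePred Q) :
    ComputablePred fun x : (ℕ × ℕ) × ℕ => Big Q x.1.1 x.1.2 x.2 := by
  refine cp_all_lt (p := fun (x : (ℕ × ℕ) × ℕ) m => ∃ t < x.2, Q ((x.1.1, m), t)) ?_
    (by fun_prop)
  refine cp_ex_lt (p := fun (x : ((ℕ × ℕ) × ℕ) × ℕ) t => Q ((x.1.1.1, x.2), t)) ?_
    (by fun_prop)
  exact RE.cp_comp hQ (f := fun x : (((ℕ × ℕ) × ℕ) × ℕ) × ℕ => ((x.1.1.1.1, x.1.2), x.2))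
    (by fun_prop)

theorem cp_Ok (hQ : ComputablePred Q) :
    ComputablePred fun x : (ℕ × ℕ) × ℕ => Ok Q e0 x.1.1 x.1.2 x.2 := by
  refine cp_and (cp_and (RE.cp_le (by fun_prop) (by fun_prop))
    (cp_and (cp_wst (f := fun _ => e0) (by fun_prop) (by fun_prop) (by fun_prop))
      (cp_and (cp_wst (f := fun x => x.1.1.unpair.1) (by fun_prop) (by fun_prop) (by fun_prop))
        (cp_wst (f := fun x => x.1.1.unpair.2) (by fun_prop) (by fun_prop) (by fun_prop))))) ?_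
  refine cp_all_lt (p := fun (x : (ℕ × ℕ) × ℕ) k =>
    (wst ℕ k.unpair.1.unpair.2 x.2 x.1.2 = true ∨ ¬ Big Q k x.1.2 x.2)) ?_ (by fun_prop)
  refine cp_or (cp_wst4 (by fun_prop) (by fun_prop) (by fun_prop)) ?_
  refine ComputablePred.not ?_
  exact RE.cp_comp (cp_Big hQ) (f := fun x : ((ℕ × ℕ) × ℕ) × ℕ => ((x.2, x.1.1.2), x.1.2))
    (by fun_prop)

theorem cp_Lst (hQ : ComputablePred Q) :
    ComputablePred fun x : (ℕ × ℕ) × ℕ => Lst Q e0 x.1.1 x.1.2 x.2 := by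
  refine cp_and (cp_Ok e0 hQ) ?_
  refine cp_all_lt (p := fun (x : (ℕ × ℕ) × ℕ) w => ¬ Ok Q e0 x.1.1 w.unpair.1 w.unpair.2) ?_
    (by fun_prop)
  refine ComputablePred.not ?_
  exact RE.cp_comp (cp_Ok e0 hQ)
    (f := fun x : ((ℕ × ℕ) × ℕ) × ℕ => ((x.1.1.1, x.2.unpair.1), x.2.unpair.2))
    (by fun_prop)

theorem re_DD (hQ : ComputablePred Q) : Re (DD Q e0) := by
  refine RE.exN (p := fun (y : ℕ) i => ∃ s, Lst Q e0 i y s) ?_
  refine RE.exN (p := fun (x : ℕ × ℕ) s => Lst Q e0 x.2 x.1 s) ?_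
  exact (RE.cp_comp (cp_Lst e0 hQ) (f := fun x : (ℕ × ℕ) × ℕ => ((x.1.2, x.1.1), x.2))
    (by fun_prop)).to_re

/-- The exceptional set for a true witness. -/
def TT (Q : (ℕ × ℕ) × ℕ → Prop) (e0 k : ℕ) : Set ℕ :=
  {y | ∃ i s, Lst Q e0 i y s ∧ k < i ∧ ¬ Big Q k y s}

theorem rec_TT (hQ : ComputablePred Q) {k : ℕ} (hk : Tr Q k) : Rec (TT Q e0 k) := by
  refine RE.cp_of_re ?_ ?_
  · refine RE.exN (p := fun (y : ℕ) i => ∃ s, Lst Q e0 i y s ∧ k < i ∧ ¬ Big Q k y s) ?_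
    refine RE.exN (p := fun (x : ℕ × ℕ) s => Lst Q e0 x.2 x.1 s ∧ k < x.2 ∧ ¬ Big Q k x.1 s) ?_
    refine (cp_and (RE.cp_comp (cp_Lst e0 hQ)
      (f := fun x : (ℕ × ℕ) × ℕ => ((x.1.2, x.1.1), x.2)) (by fun_prop))
      (cp_and (RE.cp_lt (by fun_prop) (by fun_prop)) ?_)).to_re
    refine ComputablePred.not ?_
    exact RE.cp_comp (cp_Big hQ) (f := fun x : (ℕ × ℕ) × ℕ => ((k, x.1.1), x.2)) (by fun_prop)
  · have h1 : REPred fun y : ℕ => ∃ s, Big Q k y s ∧ ∀ i < s + 1, ∀ s' < s,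
        ¬ (Lst Q e0 i y s' ∧ k < i ∧ ¬ Big Q k y s') := by
      refine RE.exN (p := fun (y : ℕ) s => Big Q k y s ∧ ∀ i < s + 1, ∀ s' < s,
        ¬ (Lst Q e0 i y s' ∧ k < i ∧ ¬ Big Q k y s')) ?_
      refine (cp_and (RE.cp_comp (cp_Big hQ) (f := fun x : ℕ × ℕ => ((k, x.1), x.2))
        (by fun_prop)) ?_).to_re
      refine cp_all_lt (p := fun (x : ℕ × ℕ) i => ∀ s' < x.2,
        ¬ (Lst Q e0 i x.1 s' ∧ k < i ∧ ¬ Big Q k x.1 s')) ?_ (by fun_prop)
      refine cp_all_lt (p := fun (x : (ℕ × ℕ) × ℕ) s' =>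
        ¬ (Lst Q e0 x.2 x.1.1 s' ∧ k < x.2 ∧ ¬ Big Q k x.1.1 s')) ?_ (by fun_prop)
      refine ComputablePred.not ?_
      refine cp_and (RE.cp_comp (cp_Lst e0 hQ)
        (f := fun x : ((ℕ × ℕ) × ℕ) × ℕ => ((x.1.2, x.1.1.1), x.2)) (by fun_prop))
        (cp_and (RE.cp_lt (by fun_prop) (by fun_prop)) ?_)
      refine ComputablePred.not ?_
      exact RE.cp_comp (cp_Big hQ)
        (f := fun x : ((ℕ × ℕ) × ℕ) × ℕ => ((k, x.1.1.1), x.2)) (by fun_prop)
    refine h1.of_eq fun y => ?_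
    constructor
    · rintro ⟨s, hs, h2⟩ ⟨i, s', h3, h4, h5⟩
      have h6 : s' < s := by
        by_contra hcon
        exact h5 (Big.mono Q (not_lt.1 hcon) hs)
      have h7 : i ≤ s' := h3.1.1.1
      exact h2 i (by omega) s' h6 ⟨h3, h4, h5⟩
    · intro h2
      obtain ⟨s, hs⟩ := hk.big Q y
      exact ⟨s, hs, fun i _ s' _ h3 => h2 ⟨i, s', h3⟩⟩

theorem fin_part (k : ℕ) : {y | ∃ i < k + 1, ∃ s, Lst Q e0 i y s}.Finite := by
  have h : {y | ∃ i < k + 1, ∃ s, Lst Q e0 i y s} =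
      ⋃ i ∈ Finset.range (k + 1), {y | ∃ s, Lst Q e0 i y s} := by
    ext y
    simp
  rw [h]
  refine Set.Finite.biUnion (Finset.finite_toSet _) fun i _ => ?_
  refine Set.Subsingleton.finite ?_
  rintro y ⟨s, hy⟩ y' ⟨s', hy'⟩
  exact hy.unique Q e0 hy'

end constr

/-- Every `Σ⁰₃` ideal of the Boolean algebra of splittings of `A` that contains the computable
subsets of `A` is coded by an r.e. subset `D` of `A`. -/
theorem code_sigma3 {A : Set ℕ} (hA : Re A) (J : Set ℕ → Prop)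
    (hJ : Sig 3 fun p : ℕ × ℕ => (W p.1 ∪ W p.2 = A ∧ W p.1 ∩ W p.2 = ∅) ∧ J (W p.1))
    (hrec : ∀ S, Rec S → S ⊆ A → J S)
    (hun : ∀ X Y, Spl A X → Spl A Y → J X → J Y → J (X ∪ Y))
    (hdown : ∀ X Y, Spl A X → Spl A Y → X ⊆ Y → J Y → J X) :
    ∃ D, Re D ∧ D ⊆ A ∧ ∀ X, Spl A X → (J X ↔ Jd A D X) := by
  obtain ⟨Q, hQ, hP⟩ := sig3_nf hJ
  obtain ⟨e0, he0⟩ := exists_W hA
  -- true witnesses
  have htr : ∀ k, Tr Q k → (W k.unpair.1.unpair.1 ∪ W k.unpair.1.unpair.2 = A ∧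
      W k.unpair.1.unpair.1 ∩ W k.unpair.1.unpair.2 = ∅) ∧ J (W k.unpair.1.unpair.1) := by
    intro k hk
    refine (hP (k.unpair.1.unpair.1, k.unpair.1.unpair.2)).2 ⟨k.unpair.2, ?_⟩
    simpa only [Nat.pair_unpair, Tr] using hk
  refine ⟨DD Q e0, re_DD e0 hQ, ?_, ?_⟩
  · rintro y ⟨i, s, h⟩
    rw [← he0]
    exact ⟨s, h.1.1.2.1⟩
  intro X hX
  constructor
  · intro hJX
    obtain ⟨hX1, Y, hY, hXY1, hXY2⟩ := hX
    obtain ⟨a, rfl⟩ := exists_W hX1
    obtain ⟨b, rfl⟩ := exists_W hY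
    obtain ⟨j, hj⟩ := (hP (a, b)).1 ⟨⟨hXY1, hXY2⟩, hJX⟩
    set k := Nat.pair (Nat.pair a b) j with hk
    have hkT : Tr Q k := hj
    refine ⟨{y | ∃ i < k + 1, ∃ s, Lst Q e0 i y s} ∪ TT Q e0 k,
      rec_union (rec_finite (fin_part e0 k)) (rec_TT e0 hQ hkT), ?_, ?_⟩
    · rintro y (⟨i, -, s, h⟩ | ⟨i, s, h, -⟩)
      · rw [← he0]
        exact ⟨s, h.1.1.2.1⟩
      · rw [← he0]
        exact ⟨s, h.1.1.2.1⟩
    · rintro y ⟨hy, i, s, h⟩
      by_cases hik : i < k + 1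
      · exact Or.inl ⟨i, hik, s, h⟩
      · refine Or.inr ⟨i, s, h, by omega, ?_⟩
        intro hb
        rcases h.1.2 k (by omega) with h1 | h1
        · have h2 : y ∈ W b := by
            refine ⟨s, ?_⟩
            simpa [hk] using h1
          have : y ∈ (∅ : Set ℕ) := hXY2 ▸ ⟨hy, h2⟩
          exact this
        · exact h1 hb
  · rintro ⟨S, hS, hSA, hXS⟩
    by_contra hJX
    obtain ⟨a, ha⟩ := exists_W hX.1
    obtain ⟨v, hv⟩ := exists_W (X := Sᶜ) (ComputablePred.not hS).to_re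
    -- the sets Z_n
    have hZ : ∀ n, Spl A {x | x ∈ X ∧ ∀ k < n, Tr Q k → x ∉ W k.unpair.1.unpair.1} ∧
        ¬ J {x | x ∈ X ∧ ∀ k < n, Tr Q k → x ∉ W k.unpair.1.unpair.1} := by
      intro n
      induction n with
      | zero => simpa using ⟨hX, hJX⟩
      | succ n ih =>
        by_cases hn : Tr Q n
        · obtain ⟨⟨h1, h2⟩, h3⟩ := htr n hn
          have e : {x | x ∈ X ∧ ∀ k < n + 1, Tr Q k → x ∉ W k.unpair.1.unpair.1} =
              {x | x ∈ X ∧ ∀ k < n, Tr Q k → x ∉ W k.unpair.1.unpair.1} \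
                W n.unpair.1.unpair.1 := by
            ext x
            simp only [Set.mem_sdiff, Set.mem_ofPred_eq]
            constructor
            · rintro ⟨h4, h5⟩
              exact ⟨⟨h4, fun k hk => h5 k (by omega)⟩, h5 n (by omega) hn⟩
            · rintro ⟨⟨h4, h5⟩, h6⟩
              refine ⟨h4, fun k hk hkt => ?_⟩
              rcases Nat.lt_succ_iff_lt_or_eq.1 hk with h7 | h7
              · exact h5 k h7 hkt
              · rw [h7]; exact h6
          have hsp : Spl A ({x | x ∈ X ∧ ∀ k < n, Tr Q k → x ∉ W k.unpair.1.unpair.1} \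
                W n.unpair.1.unpair.1) := spl_diff ih.1 (re_W _) (re_W _) h1 h2
          have hspn : Spl A (W n.unpair.1.unpair.1) := ⟨re_W _, _, re_W _, h1, h2⟩
          rw [e]
          refine ⟨hsp, fun hJ' => ih.2 ?_⟩
          refine hdown _ _ ih.1 (spl_union hsp hspn) ?_ (hun _ _ hsp hspn hJ' h3)
          intro x hx
          by_cases hxn : x ∈ W n.unpair.1.unpair.1
          · exact Or.inr hxn
          · exact Or.inl ⟨hx, hxn⟩
        · have e : {x | x ∈ X ∧ ∀ k < n + 1, Tr Q k → x ∉ W k.unpair.1.unpair.1} =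
              {x | x ∈ X ∧ ∀ k < n, Tr Q k → x ∉ W k.unpair.1.unpair.1} := by
            ext x
            simp only [Set.mem_ofPred_eq]
            constructor
            · rintro ⟨h4, h5⟩
              exact ⟨h4, fun k hk => h5 k (by omega)⟩
            · rintro ⟨h4, h5⟩
              refine ⟨h4, fun k hk hkt => ?_⟩
              rcases Nat.lt_succ_iff_lt_or_eq.1 hk with h7 | h7
              · exact h5 k h7 hkt
              · rw [h7] at hkt; exact absurd hkt hn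
          rw [e]
          exact ih
    set i := Nat.pair a v with hi
    obtain ⟨hZ1, hZ2⟩ := hZ i
    set Z := {x | x ∈ X ∧ ∀ k < i, Tr Q k → x ∉ W k.unpair.1.unpair.1} with hZdef
    have hinf : (Z \ S).Infinite := by
      intro hfin
      apply hZ2
      have hA' : Z ⊆ A := by
        obtain ⟨-, Y, -, h1, -⟩ := hZ1
        rw [← h1]
        exact Set.subset_union_left
      have hS' : Rec (S ∪ (Z \ S)) := rec_union hS (rec_finite hfin)
      have hSA' : S ∪ (Z \ S) ⊆ A := by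
        rintro x (hx | hx)
        · exact hSA hx
        · exact hA' hx.1
      refine hdown _ _ hZ1 (spl_rec hA hS' hSA') ?_ (hrec _ hS' hSA')
      intro x hx
      by_cases hxS : x ∈ S
      · exact Or.inl hxS
      · exact Or.inr ⟨hx, hxS⟩
    -- bounds for false witnesses
    have hM : ∀ k, ∃ m, ¬ Tr Q k → ∀ t, ¬ Q ((k, m), t) := by
      intro k
      by_cases hk : Tr Q k
      · exact ⟨0, fun h => absurd hk h⟩
      · unfold Tr at hk
        push Not at hk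
        obtain ⟨m, hm⟩ := hk
        exact ⟨m, fun _ => hm⟩
    choose M hM using hM
    obtain ⟨x, hx, hxM⟩ := hinf.exists_gt ((Finset.range i).sup M)
    obtain ⟨hxZ, hxS⟩ := hx
    have hxX : x ∈ X := hxZ.1
    have hXA : X ⊆ A := by
      obtain ⟨-, Y, -, h1, -⟩ := hX
      rw [← h1]
      exact Set.subset_union_left
    have hxA : x ∈ A := hXA hxX
    have hst : ∀ k, ∃ s, k < i → Tr Q k → wst ℕ k.unpair.1.unpair.2 s x = true := by
      intro k
      by_cases hk : k < i ∧ Tr Q k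
      · obtain ⟨⟨h1, h2⟩, h3⟩ := htr k hk.2
        have h4 : x ∈ W k.unpair.1.unpair.1 ∪ W k.unpair.1.unpair.2 := by rw [h1]; exact hxA
        rcases h4 with h4 | h4
        · exact absurd h4 (hxZ.2 k hk.1 hk.2)
        · obtain ⟨s, hs⟩ := h4
          exact ⟨s, fun _ _ => hs⟩
      · exact ⟨0, fun h1 h2 => absurd ⟨h1, h2⟩ hk⟩
    choose st hst using hst
    obtain ⟨s1, hs1⟩ : x ∈ W e0 := by rw [he0]; exact hxA
    obtain ⟨s2, hs2⟩ : x ∈ W a := by rw [ha]; exact hxX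
    obtain ⟨s3, hs3⟩ : x ∈ W v := by rw [hv]; exact hxS
    set s := i + s1 + s2 + s3 + (Finset.range i).sup st with hs
    have hOk : Ok Q e0 i x s := by
      refine ⟨⟨by omega, wst_mono (by omega) hs1, ?_, ?_⟩, fun k hk => ?_⟩
      · have : i.unpair.1 = a := by simp [hi]
        rw [this]
        exact wst_mono (by omega) hs2
      · have : i.unpair.2 = v := by simp [hi]
        rw [this]
        exact wst_mono (by omega) hs3
      · by_cases hkT : Tr Q k
        · left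
          have h1 : st k ≤ (Finset.range i).sup st :=
            Finset.le_sup (f := st) (Finset.mem_range.2 hk)
          exact wst_mono (by omega) (hst k hk hkT)
        · right
          intro hb
          have h1 : M k ≤ (Finset.range i).sup M :=
            Finset.le_sup (f := M) (Finset.mem_range.2 hk)
          obtain ⟨t, -, ht⟩ := hb (M k) (by omega)
          exact hM k hkT t ht
    obtain ⟨x', s', hL⟩ := exists_lst Q e0 hOk
    have h1 : x' ∈ X := by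
      rw [← ha]
      refine ⟨s', ?_⟩
      have := hL.1.1.2.2.1
      simpa [hi] using this
    have h2 : x' ∈ Sᶜ := by
      rw [← hv]
      refine ⟨s', ?_⟩
      have := hL.1.1.2.2.2
      simpa [hi] using this
    exact h2 (hXS ⟨h1, i, s', hL⟩)

end Pool.Agent.Helper446.EL.C3

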