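import Pool.Agent.Helper446.Comp
import Pool.Agent.Helper446.EL.Basic


namespace Pool.Agent.Helper446.EL.Fr

open Pool.Agent.Helper446.RE Pool.Agent.Helper446.CB Pool.Agent.Helper446.EL

/-- `k + 1` for the least `k < n` with `q k`, and `0` if there is none -/
def fnd (q : ℕ → Bool) : ℕ → ℕ
  | 0 => 0
  | n + 1 => bif (decide (fnd q n = 0)) then (bif q n then n + 1 else 0) else fnd q n

theorem fnd_zero {q : ℕ → Bool} {n : ℕ} (h : fnd q n = 0) : ∀ i < n, q i = false := by
  induction n with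
  | zero => intro i hi; omega
  | succ n ih =>
    intro i hi
    have h0 : fnd q n = 0 := by
      by_contra h1
      simp [fnd, h1] at h
    have h2 : q n = false := by
      cases hq : q n
      · rfl
      · simp [fnd, h0, hq] at h
    rcases Nat.lt_succ_iff_lt_or_eq.1 hi with h3 | h3
    · exact ih h0 i h3
    · rw [h3]; exact h2

theorem fnd_succ {q : ℕ → Bool} {n k : ℕ} (h : fnd q n = k + 1) :
    k < n ∧ q k = true ∧ ∀ i < k, q i = false := by
  induction n with
  | zero => simp [fnd] at h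
  | succ n ih =>
    by_cases h0 : fnd q n = 0
    · cases hq : q n
      · simp [fnd, h0, hq] at h
      · simp [fnd, h0, hq] at h
        subst h
        exact ⟨by omega, hq, fnd_zero h0⟩
    · simp [fnd, h0] at h
      obtain ⟨h1, h2, h3⟩ := ih h
      exact ⟨by omega, h2, h3⟩

theorem computable_fnd {α : Type*} [Primcodable α] {q : α → ℕ → Bool} (hq : Computable₂ q)
    {f : α → ℕ} (hf : Computable f) : Computable fun a => fnd (q a) (f a) := by
  have hq' : Computable fun x : α × ℕ => q x.1 x.2 := hq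
  have h := Computable.nat_rec (f := f) (g := fun _ : α => 0)
    (h := fun (a : α) (y : ℕ × ℕ) => bif (decide (y.2 = 0)) then (bif q a y.1 then y.1 + 1 else 0)
      else y.2) hf (Computable.const 0) (by
        unfold Computable₂
        refine ccond ?_ ?_ (by fun_prop)
        · exact cdecide (cp_eq (by fun_prop) (by fun_prop))
        · refine ccond ?_ (by fun_prop) (by fun_prop)
          exact hq'.comp (f := fun x : α × ℕ => q x.1 x.2) (g := fun x : α × (ℕ × ℕ) => (x.1, x.2.1))
            (by fun_prop))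
  refine h.of_eq fun a => ?_
  generalize f a = n
  induction n with
  | zero => rfl
  | succ n ih => simp only [fnd]; rw [← ih]

/-- the test used at stage `s` -/
def tst (f : ℕ → ℕ) (s : ℕ) (l : List (ℕ × ℕ)) (k : ℕ) : Bool :=
  !(decide (k + 1 ∈ l.map Prod.snd)) && wst ℕ k.unpair.1 s (f s)

/-- the construction: elements already placed, with the requirement for which they were placed -/
def stg (f : ℕ → ℕ) : ℕ → List (ℕ × ℕ)
  | 0 => []
  | s + 1 => bif decide (f s ∈ (stg f s).map Prod.fst) then stg f s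
      else (f s, fnd (tst f s (stg f s)) (s + 1)) :: stg f s

theorem computable_stg {f : ℕ → ℕ} (hf : Computable f) : Computable (stg f) := by
  have h1 : Computable₂ fun (x : ℕ × List (ℕ × ℕ)) (k : ℕ) => tst f x.1 x.2 k := by
    unfold Computable₂ tst
    refine cand (cnot (cdecide (cp_mem (by fun_prop) (by fun_prop)))) ?_
    exact wst_comp.comp (f := fun p : (ℕ × ℕ) × ℕ => wst ℕ p.1.1 p.1.2 p.2)
      (g := fun x : (ℕ × List (ℕ × ℕ)) × ℕ => ((x.2.unpair.1, x.1.1), f x.1.1)) (by fun_prop)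
  have h2 : Computable fun x : ℕ × List (ℕ × ℕ) => fnd (tst f x.1 x.2) (x.1 + 1) :=
    computable_fnd h1 (by fun_prop)
  have h := Computable.nat_rec (f := fun s : ℕ => s) (g := fun _ : ℕ => ([] : List (ℕ × ℕ)))
    (h := fun (_ : ℕ) (y : ℕ × List (ℕ × ℕ)) => bif decide (f y.1 ∈ y.2.map Prod.fst) then y.2
      else (f y.1, fnd (tst f y.1 y.2) (y.1 + 1)) :: y.2) (by fun_prop) (by fun_prop) (by
        unfold Computable₂
        refine ccond (cdecide (cp_mem (by fun_prop) (by fun_prop))) (by fun_prop) ?_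
        refine ccons (cpair (by fun_prop) ?_) (by fun_prop)
        exact h2.comp (g := fun x : ℕ × (ℕ × List (ℕ × ℕ)) => x.2) (by fun_prop))
  refine h.of_eq fun s => ?_
  induction s with
  | zero => rfl
  | succ n ih => simp only [stg]; rw [← ih]

theorem stg_succ_of_mem {f : ℕ → ℕ} {s : ℕ} (h : f s ∈ (stg f s).map Prod.fst) :
    stg f (s + 1) = stg f s := by
  simp only [stg, decide_eq_true h, cond_true]

theorem stg_succ_of_not_mem {f : ℕ → ℕ} {s : ℕ} (h : f s ∉ (stg f s).map Prod.fst) :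
    stg f (s + 1) = (f s, fnd (tst f s (stg f s)) (s + 1)) :: stg f s := by
  simp only [stg, decide_eq_false h, cond_false]

theorem stg_mono_succ (f : ℕ → ℕ) (s : ℕ) : stg f s ⊆ stg f (s + 1) := by
  by_cases h : f s ∈ (stg f s).map Prod.fst
  · rw [stg_succ_of_mem h]; exact fun x hx => hx
  · rw [stg_succ_of_not_mem h]; exact List.subset_cons_self _ _

theorem stg_mono (f : ℕ → ℕ) {s t : ℕ} (h : s ≤ t) : stg f s ⊆ stg f t := by
  induction h with
  | refl => exact fun x hx => hx
  | step _ ih => exact fun x hx => stg_mono_succ f _ (ih hx)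

theorem mem_fst_stg (f : ℕ → ℕ) (s x : ℕ) :
    x ∈ (stg f s).map Prod.fst ↔ ∃ t < s, f t = x := by
  induction s with
  | zero => simp [stg]
  | succ s ih =>
    by_cases h : f s ∈ (stg f s).map Prod.fst
    · rw [stg_succ_of_mem h, ih]
      constructor
      · rintro ⟨t, ht, rfl⟩; exact ⟨t, by omega, rfl⟩
      · rintro ⟨t, ht, rfl⟩
        rcases Nat.lt_succ_iff_lt_or_eq.1 ht with h3 | h3
        · exact ⟨t, h3, rfl⟩
        · subst h3; exact ih.1 h
    · rw [stg_succ_of_not_mem h, List.map_cons, List.mem_cons, ih]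
      constructor
      · rintro (rfl | ⟨t, ht, rfl⟩)
        · exact ⟨s, by omega, rfl⟩
        · exact ⟨t, by omega, rfl⟩
      · rintro ⟨t, ht, rfl⟩
        rcases Nat.lt_succ_iff_lt_or_eq.1 ht with h3 | h3
        · exact Or.inr ⟨t, h3, rfl⟩
        · subst h3; exact Or.inl rfl

theorem stg_unique (f : ℕ → ℕ) (s : ℕ) {x j j' : ℕ} (h : (x, j) ∈ stg f s)
    (h' : (x, j') ∈ stg f s) : j = j' := by
  induction s with
  | zero => simp [stg] at h
  | succ s ih =>
    by_cases hm : f s ∈ (stg f s).map Prod.fst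
    · rw [stg_succ_of_mem hm] at h h'; exact ih h h'
    · rw [stg_succ_of_not_mem hm, List.mem_cons] at h h'
      rcases h with h | h
      · rcases h' with h' | h'
        · have := h.trans h'.symm
          exact (Prod.mk.inj this).2
        · exfalso; apply hm
          rw [← (Prod.mk.inj h).1]
          exact List.mem_map.2 ⟨_, h', rfl⟩
      · rcases h' with h' | h'
        · exfalso; apply hm
          rw [← (Prod.mk.inj h').1]
          exact List.mem_map.2 ⟨_, h, rfl⟩
        · exact ih h h'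

theorem stg_wst (f : ℕ → ℕ) (s : ℕ) {x k : ℕ} (h : (x, k + 1) ∈ stg f s) :
    ∃ t, wst ℕ k.unpair.1 t x = true := by
  induction s with
  | zero => simp [stg] at h
  | succ s ih =>
    by_cases hm : f s ∈ (stg f s).map Prod.fst
    · rw [stg_succ_of_mem hm] at h; exact ih h
    · rw [stg_succ_of_not_mem hm, List.mem_cons] at h
      rcases h with h | h
      · obtain ⟨h1, h2⟩ := Prod.mk.inj h
        obtain ⟨-, h3, -⟩ := fnd_succ h2.symm
        unfold tst at h3
        rw [Bool.and_eq_true] at h3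
        exact ⟨s, by rw [h1]; exact h3.2⟩
      · exact ih h

theorem act_or (f : ℕ → ℕ) (k : ℕ) : (∃ s, k + 1 ∈ (stg f s).map Prod.snd) ∨
    ∃ s0, ∀ s ≥ s0, f s ∉ (stg f s).map Prod.fst → wst ℕ k.unpair.1 s (f s) = false := by
  by_cases hk : ∃ s, k + 1 ∈ (stg f s).map Prod.snd
  · exact Or.inl hk
  right
  have h1 : ∀ i, ∃ t, (∃ s, i + 1 ∈ (stg f s).map Prod.snd) → i + 1 ∈ (stg f t).map Prod.snd := by
    intro i
    by_cases hi : ∃ s, i + 1 ∈ (stg f s).map Prod.snd
    · obtain ⟨s, hs⟩ := hi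
      exact ⟨s, fun _ => hs⟩
    · exact ⟨0, fun h => absurd h hi⟩
  choose T hT using h1
  refine ⟨max k ((Finset.range k).sup T), fun s hs hnew => ?_⟩
  cases hw : wst ℕ k.unpair.1 s (f s)
  · rfl
  exfalso
  have hk0 : tst f s (stg f s) k = true := by
    unfold tst
    rw [hw, Bool.and_true, decide_eq_false (fun h => hk ⟨s, h⟩)]
    rfl
  have hst := stg_succ_of_not_mem hnew
  cases hf : fnd (tst f s (stg f s)) (s + 1) with
  | zero =>
    have := fnd_zero hf k (by have := le_max_left k ((Finset.range k).sup T); omega)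
    rw [this] at hk0
    exact Bool.false_ne_true hk0
  | succ j =>
    obtain ⟨h2, h3, h4⟩ := fnd_succ hf
    have hjk : j ≤ k := by
      by_contra hcon
      have := h4 k (by omega)
      rw [this] at hk0
      exact Bool.false_ne_true hk0
    have hmem : j + 1 ∈ (stg f (s + 1)).map Prod.snd := by
      rw [hst, hf]
      simp
    rcases hjk.lt_or_eq with h5 | h5
    · have h6 := hT j ⟨_, hmem⟩
      have h7 : T j ≤ s := by
        have h8 : T j ≤ (Finset.range k).sup T := Finset.le_sup (f := T) (Finset.mem_range.2 h5)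
        have := le_max_right k ((Finset.range k).sup T)
        omega
      have h9 : j + 1 ∈ (stg f s).map Prod.snd := by
        rw [List.mem_map] at h6 ⊢
        obtain ⟨a, ha, ha2⟩ := h6
        exact ⟨a, stg_mono f h7 ha, ha2⟩
      unfold tst at h3
      rw [decide_eq_true h9] at h3
      simp at h3
    · subst h5
      exact hk ⟨_, hmem⟩

/-- Friedberg splitting into infinitely many pieces, uniformly. -/
theorem friedberg {A : Set ℕ} (hA : Re A) : ∃ P : ℕ → Set ℕ,
    (REPred fun x : ℕ × ℕ => x.2 ∈ P x.1) ∧ (∀ x, x ∈ A ↔ ∃ n, x ∈ P n) ∧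
    (∀ n m x, x ∈ P n → x ∈ P m → n = m) ∧
    ∀ R, Rec R → ∀ n, Rec (R ∩ P n) → Rec (R ∩ A) := by
  rcases A.eq_empty_or_nonempty with hE | ⟨a0, ha0⟩
  · refine ⟨fun _ => ∅, (const False).of_eq fun x => by simp, fun x => by simp [hE], ?_, ?_⟩
    · intro n m x h; exact absurd h (Set.notMem_empty x)
    · intro R _ n h
      rw [hE]
      exact h
  obtain ⟨f, hf, hfA⟩ := exists_enum hA ha0
  have hstg := computable_stg hf
  refine ⟨fun n => {x | ∃ b : ℕ × ℕ, (x, b.2) ∈ stg f b.1 ∧ (b.2 - 1).unpair.2 = n}, ?_, ?_, ?_, ?_⟩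
  · refine ex (p := fun (x : ℕ × ℕ) (b : ℕ × ℕ) => (x.2, b.2) ∈ stg f b.1 ∧
      (b.2 - 1).unpair.2 = x.1) (and (mem_list (by fun_prop) (by fun_prop))
        (eq (by fun_prop) (by fun_prop)))
  · intro x
    rw [show x ∈ A ↔ ∃ n, f n = x from hfA x]
    constructor
    · rintro ⟨t, ht⟩
      have h1 := (mem_fst_stg f (t + 1) x).2 ⟨t, by omega, ht⟩
      rw [List.mem_map] at h1
      obtain ⟨⟨y, j⟩, hy, hyx⟩ := h1
      have hyx' : y = x := hyx
      subst hyx'
      exact ⟨_, (t + 1, j), hy, rfl⟩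
    · rintro ⟨n, ⟨s, j⟩, hb, -⟩
      obtain ⟨t, -, ht⟩ := (mem_fst_stg f s x).1 (List.mem_map.2 ⟨_, hb, rfl⟩)
      exact ⟨t, ht⟩
  · rintro n m x ⟨⟨s, j⟩, hb, h1⟩ ⟨⟨s', j'⟩, hb', h1'⟩
    have h2 := stg_unique f (max s s') (stg_mono f (le_max_left _ _) hb)
      (stg_mono f (le_max_right _ _) hb')
    have h2' : j = j' := h2
    rw [← h1, ← h1']
    show (j - 1).unpair.2 = (j' - 1).unpair.2
    rw [h2']
  · intro R hR n hn
    set Pn : Set ℕ := {x | ∃ b : ℕ × ℕ, (x, b.2) ∈ stg f b.1 ∧ (b.2 - 1).unpair.2 = n} with hPn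
    have hPA : Pn ⊆ A := by
      rintro x ⟨⟨s, j⟩, hb, -⟩
      obtain ⟨t, -, ht⟩ := (mem_fst_stg f s x).1 (List.mem_map.2 ⟨_, hb, rfl⟩)
      exact (hfA x).2 ⟨t, ht⟩
    -- the rest of R
    have hV : ComputablePred fun x => x ∈ R \ Pn := by
      have h1 : ComputablePred fun x => x ∈ R ∧ ¬ x ∈ R ∩ Pn := cp_and hR hn.not
      refine h1.of_eq fun x => ?_
      constructor
      · rintro ⟨h2, h3⟩; exact ⟨h2, fun h4 => h3 ⟨h2, h4⟩⟩
      · rintro ⟨h2, h3⟩; exact ⟨h2, fun h4 => h3 h4.2⟩
    obtain ⟨e, he⟩ := wst_univ hV.to_re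
    have hact := act_or f (Nat.pair e n)
    rw [Nat.unpair_pair] at hact
    rcases hact with ⟨s, hs⟩ | ⟨s0, hs0⟩
    · exfalso
      rw [List.mem_map] at hs
      obtain ⟨⟨x, j⟩, hx, hj⟩ := hs
      have hj' : j = Nat.pair e n + 1 := hj
      subst hj'
      have h1 := stg_wst f s hx
      rw [Nat.unpair_pair] at h1
      have h2 := (he x).2 h1
      apply h2.2
      exact ⟨(s, Nat.pair e n + 1), hx, by simp⟩
    · have hVA : ComputablePred fun x => x ∈ R \ Pn ∧ x ∈ A := by
        refine cp_of_re (and hV.to_re hA) ?_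
        have h1 : REPred fun x => ¬ x ∈ R \ Pn ∨ ∃ s, wst ℕ e s x = true ∧
            x ∉ (stg f (max s s0)).map Prod.fst := by
          refine or hV.not.to_re ?_
          refine exN (p := fun x s => wst ℕ e s x = true ∧
            x ∉ (stg f (max s s0)).map Prod.fst) ?_
          refine and (of_bool ?_) (not_mem_list (by fun_prop) (by fun_prop))
          exact wst_comp.comp (f := fun p : (ℕ × ℕ) × ℕ => wst ℕ p.1.1 p.1.2 p.2)
            (g := fun x : ℕ × ℕ => ((e, x.2), x.1)) (by fun_prop)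
        refine h1.of_eq fun x => ?_
        constructor
        · rintro (h2 | ⟨s, h2, h3⟩)
          · exact fun h4 => h2 h4.1
          · rintro ⟨-, h4⟩
            have hex : ∃ t, f t = x := (hfA x).1 h4
            classical
            have h5 := Nat.find_spec hex
            set t := Nat.find hex
            have h6 : max s s0 ≤ t := by
              by_contra hcon
              exact h3 ((mem_fst_stg f _ x).2 ⟨t, by omega, h5⟩)
            have h7 : f t ∉ (stg f t).map Prod.fst := by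
              intro h8
              rw [mem_fst_stg] at h8
              obtain ⟨u, hu, hu2⟩ := h8
              exact Nat.find_min hex hu (hu2.trans h5)
            have h8 := hs0 t ((le_max_right _ _).trans h6) h7
            rw [h5] at h8
            rw [wst_mono ((le_max_left _ _).trans h6) h2] at h8
            exact Bool.false_ne_true h8.symm
        · intro h2
          by_cases h3 : x ∈ R \ Pn
          · right
            obtain ⟨s, hs⟩ := (he x).1 h3
            refine ⟨s, hs, fun h4 => h2 ⟨h3, ?_⟩⟩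
            obtain ⟨t, -, ht⟩ := (mem_fst_stg f _ x).1 h4
            exact (hfA x).2 ⟨t, ht⟩
          · exact Or.inl h3
      have h1 := cp_or hVA hn
      refine h1.of_eq fun x => ?_
      constructor
      · rintro (⟨h2, h3⟩ | ⟨h2, h3⟩)
        · exact ⟨h2.1, h3⟩
        · exact ⟨h2, hPA h3⟩
      · rintro ⟨h2, h3⟩
        by_cases h4 : x ∈ Pn
        · exact Or.inr ⟨h2, h4⟩
        · exact Or.inl ⟨⟨h2, h4⟩, h3⟩

/-- An infinite r.e. set has a noncomputable r.e. subset. -/
theorem exists_not_rec {X : Set ℕ} (hX : Re X) (hinf : X.Infinite) :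
    ∃ Y, Y ⊆ X ∧ Re Y ∧ ¬ Rec Y := by
  obtain ⟨F, hF, hF1, hF2⟩ := uniformize (r := fun a b : ℕ => b ∈ X ∧ a < b)
    (and (RE.comp (p := fun b => b ∈ X) hX (f := fun x : ℕ × ℕ => x.2) (by fun_prop)) (lt (by fun_prop) (by fun_prop)))
  have hdom : ∀ a, (F a).Dom := fun a => (hF1 a).2 (by
    obtain ⟨b, hb, hab⟩ := hinf.exists_gt a
    exact ⟨b, hb, hab⟩)
  let F' : ℕ → ℕ := fun a => (F a).get (hdom a)
  have hF' : Computable F' := hF.of_eq_tot fun a => Part.get_mem _
  have hF'1 : ∀ a, F' a ∈ X ∧ a < F' a := fun a => hF2 a _ (Part.get_mem _)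
  let g : ℕ → ℕ := fun n => Nat.rec (F' 0) (fun _ y => F' y) n
  have hg : Computable g :=
    Computable.nat_rec (f := fun n : ℕ => n) (g := fun _ : ℕ => F' 0)
      (h := fun (_ : ℕ) (y : ℕ × ℕ) => F' y.2) (by fun_prop) (by fun_prop) (by
        unfold Computable₂; fun_prop)
  have hgX : ∀ n, g n ∈ X := by
    intro n
    cases n with
    | zero => exact (hF'1 0).1
    | succ n => exact (hF'1 (g n)).1
  have hgm : StrictMono g := strictMono_nat_of_lt_succ fun n => (hF'1 (g n)).2
  refine ⟨{y | ∃ e, (∃ s, wst ℕ e s e = true) ∧ g e = y}, ?_, ?_, ?_⟩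
  · rintro y ⟨e, -, rfl⟩; exact hgX e
  · refine exN (p := fun y e => (∃ s, wst ℕ e s e = true) ∧ g e = y) (and ?_ (eq ?_ ?_))
    · refine exN (p := fun (x : ℕ × ℕ) s => wst ℕ x.2 s x.2 = true) (of_bool ?_)
      exact wst_comp.comp (f := fun p : (ℕ × ℕ) × ℕ => wst ℕ p.1.1 p.1.2 p.2)
            (g := fun x : (ℕ × ℕ) × ℕ => ((x.1.2, x.2), x.1.2)) (by fun_prop)
    · fun_prop
    · fun_prop
  · intro hrec
    have h1 : ComputablePred fun e => g e ∈ {y | ∃ e, (∃ s, wst ℕ e s e = true) ∧ g e = y} :=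
      cp_comp hrec hg
    obtain ⟨e0, he0⟩ := wst_univ h1.not.to_re
    have h2 := he0 e0
    have h3 : g e0 ∈ {y | ∃ e, (∃ s, wst ℕ e s e = true) ∧ g e = y} ↔
        ∃ s, wst ℕ e0 s e0 = true := by
      constructor
      · rintro ⟨e, he, hge⟩
        rw [hgm.injective hge] at he
        exact he
      · intro h; exact ⟨e0, h, rfl⟩
    rw [h3] at h2
    tauto

end Pool.Agent.Helper446.EL.Fr
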