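import Pool.Agent.Helper446.EL.Tree
import Pool.Agent.Helper446.EL.C3
import Pool.Agent.Helper446.EL.Fr

/-!
Coding: for an r.e. set `A` whose supersets form a Boolean algebra there are r.e. parameters
`D₁, D₂` such that the ideal `Zd A D₁ D₂` consists of the computable sets below a finite union of
atoms.
-/

namespace Pool.Agent.Helper446.EL

open Encodable Pool.Agent.Helper446.RE Pool.Agent.Helper446.CB

variable {α β : Type} [Primcodable α] [Primcodable β]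

/-- Uniformly r.e. families. -/
def Ru (V : α → Set ℕ) : Prop := REPred fun x : α × ℕ => x.2 ∈ V x.1

theorem ru_W : Ru fun e : ℕ => W e := by
  unfold Ru W
  refine RE.exN (p := fun (x : ℕ × ℕ) s => wst ℕ x.1 s x.2 = true) ?_
  exact RE.of_bool ((wst_comp (α := ℕ)).comp
    (f := fun p : (ℕ × ℕ) × ℕ => wst ℕ p.1.1 p.1.2 p.2)
    (g := fun x : (ℕ × ℕ) × ℕ => ((x.1.1, x.2), x.1.2)) (by fun_prop))

theorem Ru.comp {V : β → Set ℕ} (h : Ru V) {f : α → β} (hf : Computable f) :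
    Ru fun a => V (f a) :=
  RE.comp (p := fun x : β × ℕ => x.2 ∈ V x.1) h (f := fun x : α × ℕ => (f x.1, x.2)) (by fun_prop)

theorem Ru.inter {V V' : α → Set ℕ} (h : Ru V) (h' : Ru V') : Ru fun a => V a ∩ V' a :=
  RE.and h h'

theorem Ru.union {V V' : α → Set ℕ} (h : Ru V) (h' : Ru V') : Ru fun a => V a ∪ V' a :=
  RE.or h h'

theorem ru_const {X : Set ℕ} (h : Re X) : Ru fun _ : α => X :=
  RE.comp (p := fun n => n ∈ X) h (f := fun x : α × ℕ => x.2) (by fun_prop)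

theorem Ru.mem {V : α → Set ℕ} (h : Ru V) : Sig 1 fun x : α × ℕ => x.2 ∈ V x.1 := sig_one.2 h

theorem pi_subset {V V' : α → Set ℕ} (h : Ru V) (h' : Ru V') : Pi 2 fun a => V a ⊆ V' a :=
  Pi.all (p := fun a x => x ∈ V a → x ∈ V' a) (Pi.imp h.mem.succ h'.mem.pi)

theorem pi_eq {V V' : α → Set ℕ} (h : Ru V) (h' : Ru V') : Pi 2 fun a => V a = V' a :=
  ((pi_subset h h').and (pi_subset h' h)).of_iff fun _ => Set.Subset.antisymm_iff.symm

theorem pi_compl {V V' : α → Set ℕ} (h : Ru V) (h' : Ru V') :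
    Pi 2 fun a => V a ∪ V' a = Set.univ ∧ V a ∩ V' a = ∅ :=
  (pi_eq (h.union h') (ru_const re_univ)).and (pi_eq (h.inter h') (ru_const re_empty))

theorem sig_rec {V : α → Set ℕ} (h : Ru V) : Sig 3 fun a => Rec (V a) := by
  have h1 : Sig 3 fun a => ∃ d : ℕ, V a ∪ W d = Set.univ ∧ V a ∩ W d = ∅ := by
    refine Sig.ex (p := fun a d => V a ∪ W d = Set.univ ∧ V a ∩ W d = ∅) ?_
    exact (pi_compl (h.comp (f := fun x : α × ℕ => x.1) (by fun_prop))
      (ru_W.comp (f := fun x : α × ℕ => x.2) (by fun_prop))).sig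
  refine h1.of_iff fun a => ⟨?_, fun hr => ?_⟩
  · rintro ⟨d, hd1, hd2⟩
    refine rec_of_re (RE.comp h (f := fun x : ℕ => (a, x)) (by fun_prop)) ?_
    have : (V a)ᶜ = W d := by
      ext x
      have e1 := Set.ext_iff.1 hd1 x
      have e2 := Set.ext_iff.1 hd2 x
      simp only [Set.mem_union, Set.mem_univ, iff_true, Set.mem_inter_iff, Set.mem_empty_iff_false,
        iff_false, not_and, Set.mem_compl_iff] at *
      tauto
    rw [this]; exact W_re d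
  · obtain ⟨d, hd⟩ := exists_W hr.compl.re
    refine ⟨d, ?_, ?_⟩
    · rw [← hd]; exact Set.union_compl_self _
    · rw [← hd]; exact Set.inter_compl_self _

theorem pi_infinite {V : α → Set ℕ} {A : Set ℕ} (h : Ru V) (hA : Re A) :
    Pi 3 fun a => (V a \ A).Infinite := by
  have h1 : Pi 3 fun a => ∀ n : ℕ, ∃ x : ℕ, n < x ∧ (x ∈ V a ∧ ¬ x ∈ A) := by
    refine Pi.all (p := fun a n => ∃ x : ℕ, n < x ∧ (x ∈ V a ∧ ¬ x ∈ A)) ?_
    refine Sig.pi ?_
    refine Sig.ex (p := fun (y : α × ℕ) x => y.2 < x ∧ (x ∈ V y.1 ∧ ¬ x ∈ A)) ?_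
    refine Sig.and (Sig.of_cp (RE.cp_lt (by fun_prop) (by fun_prop))) (Sig.and ?_ ?_)
    · exact (h.mem.comp (f := fun x : (α × ℕ) × ℕ => (x.1.1, x.2)) (by fun_prop)).succ
    · exact ((sig_one.2 hA).comp (f := fun x : (α × ℕ) × ℕ => x.2) (by fun_prop)).not.sig
  refine h1.of_iff fun a => ?_
  constructor
  · intro h2
    rw [Set.infinite_iff_exists_gt]
    intro n
    obtain ⟨x, hx1, hx2⟩ := h2 n
    exact ⟨x, ⟨hx2.1, hx2.2⟩, hx1⟩
  · intro h2 n
    rw [Set.infinite_iff_exists_gt] at h2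
    obtain ⟨x, hx1, hx2⟩ := h2 n
    exact ⟨x, hx2, hx1.1, hx1.2⟩

theorem ru_W1 : Ru W1 := ru_W.comp (f := fun i : ℕ => i.unpair.1) (by fun_prop)
theorem ru_W2 : Ru W2 := ru_W.comp (f := fun i : ℕ => i.unpair.2) (by fun_prop)

theorem ru_cell : Ru cell := by
  unfold Ru cell
  refine RE.all_lt (p := fun (x : List ℕ × ℕ) i => (x.1[i]? = some 0 → x.2 ∈ W1 i) ∧
    (x.1[i]? = some 1 → x.2 ∈ W2 i)) ?_ (f := fun x => x.1.length) (by fun_prop)
  have h : ∀ b : ℕ, ComputablePred fun x : (List ℕ × ℕ) × ℕ => x.1.1[x.2]? = some b := by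
    intro b
    exact RE.cp_eq (by fun_prop) (by fun_prop)
  have h0 := (RE.or (h 0).not.to_re (RE.comp (p := fun x : ℕ × ℕ => x.2 ∈ W1 x.1) ru_W1
    (f := fun x : (List ℕ × ℕ) × ℕ => (x.2, x.1.2)) (by fun_prop)))
  have h1 := (RE.or (h 1).not.to_re (RE.comp (p := fun x : ℕ × ℕ => x.2 ∈ W2 x.1) ru_W2
    (f := fun x : (List ℕ × ℕ) × ℕ => (x.2, x.1.2)) (by fun_prop)))
  refine (RE.and h0 h1).of_eq fun x => ?_
  simp only [imp_iff_not_or]

theorem pi_good : Pi 2 good := pi_compl ru_W1 ru_W2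

theorem pi_valid : Pi 3 valid := by
  unfold valid
  refine Pi.all_lt (p := fun (τ : List ℕ) i => (good i ∧ (τ[i]? = some 0 ∨ τ[i]? = some 1)) ∨
    (¬ good i ∧ τ[i]? = some 2)) ?_ (f := fun τ => τ.length) (by fun_prop)
  have h : ∀ b : ℕ, ComputablePred fun x : List ℕ × ℕ => x.1[x.2]? = some b := by
    intro b
    exact RE.cp_eq (by fun_prop) (by fun_prop)
  have hg : Pi 2 fun x : List ℕ × ℕ => good x.2 := pi_good.comp (f := fun x : List ℕ × ℕ => x.2) (by fun_prop)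
  exact Pi.or (Pi.and hg.succ (Pi.or (Pi.of_cp (h 0)) (Pi.of_cp (h 1))))
    (Pi.and (Pi.not hg).pi (Pi.of_cp (h 2)))

theorem pi_Br {A : Set ℕ} (hA : Re A) : Pi 3 (Br A) := by
  unfold Br
  have hl : Computable fun τ : List ℕ => τ.length := by fun_prop
  refine Pi.and pi_valid (Pi.and (pi_good.comp hl).succ (Pi.and ?_ ?_))
  · exact pi_infinite (ru_cell.inter (ru_W1.comp hl)) hA
  · exact pi_infinite (ru_cell.inter (ru_W2.comp hl)) hA

section

variable {A : Set ℕ} {P : ℕ → Set ℕ}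

/-- union of finitely many pieces -/
def fin (P : ℕ → Set ℕ) (T : List ℕ) : Set ℕ := {x | ∃ n ∈ T, x ∈ P n}

theorem ru_fin (hP : Ru P) : Ru (fin P) := by
  unfold Ru fin
  refine RE.ex_mem (p := fun (x : List ℕ × ℕ) n => x.2 ∈ P n) ?_ (l := fun x => x.1) (by fun_prop)
  exact RE.comp (p := fun x : ℕ × ℕ => x.2 ∈ P x.1) hP
    (f := fun x : (List ℕ × ℕ) × ℕ => (x.2, x.1.2)) (by fun_prop)

theorem spl_fin (hP : Ru P) (hun : ∀ x, x ∈ A ↔ ∃ n, x ∈ P n)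
    (hdis : ∀ n m x, x ∈ P n → x ∈ P m → n = m) (T : List ℕ) : Spl A (fin P T) := by
  refine ⟨RE.comp (ru_fin hP) (f := fun x : ℕ => (T, x)) (by fun_prop),
    {x | ∃ n, n ∉ T ∧ x ∈ P n}, ?_, ?_, ?_⟩
  · refine RE.exN (p := fun x n => n ∉ T ∧ x ∈ P n) (RE.and ?_ ?_)
    · exact RE.not_mem_list (f := fun x : ℕ × ℕ => x.2) (l := fun _ => T) (by fun_prop) (by fun_prop)
    · exact RE.comp (p := fun x : ℕ × ℕ => x.2 ∈ P x.1) hP (f := fun x : ℕ × ℕ => (x.2, x.1))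
        (by fun_prop)
  · ext x
    rw [hun]
    constructor
    · rintro (⟨n, -, h⟩ | ⟨n, -, h⟩)
      · exact ⟨n, h⟩
      · exact ⟨n, h⟩
    · rintro ⟨n, h⟩
      by_cases hn : n ∈ T
      · exact Or.inl ⟨n, hn, h⟩
      · exact Or.inr ⟨n, hn, h⟩
  · rw [Set.eq_empty_iff_forall_notMem]
    rintro x ⟨⟨n, hn, h⟩, ⟨m, hm, h'⟩⟩
    rw [hdis n m x h h'] at hn
    exact hm hn

/-- first ideal -/
def JF (A : Set ℕ) (P : ℕ → Set ℕ) (X : Set ℕ) : Prop :=
  ∃ T : List ℕ, ∃ S, Rec S ∧ S ⊆ A ∧ X ⊆ fin P T ∪ S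

/-- second ideal -/
def JG (A : Set ℕ) (P : ℕ → Set ℕ) (X : Set ℕ) : Prop :=
  ∃ T : List ℕ, (∃ S, Rec S ∧ S ⊆ A ∧ X ⊆ fin P T ∪ S) ∧
    ∀ n ∈ T, Br A (gd [] n) → Rec (X ∩ P n ∩ cell (gd [] n))

theorem sig_bd {V : α → Set ℕ} (hA : Re A) (hV : Ru V) {V' : α → Set ℕ} (hV' : Ru V') :
    Sig 3 fun a => ∃ S, Rec S ∧ S ⊆ A ∧ V a ⊆ V' a ∪ S := by
  have h1 : Sig 3 fun a => ∃ i : ℕ, good i ∧ (W1 i ⊆ A ∧ V a ⊆ V' a ∪ W1 i) := by
    refine Sig.ex (p := fun a i => good i ∧ (W1 i ⊆ A ∧ V a ⊆ V' a ∪ W1 i)) ?_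
    have f1 : Computable fun x : α × ℕ => x.1 := by fun_prop
    have f2 : Computable fun x : α × ℕ => x.2 := by fun_prop
    refine Pi.sig (Pi.and (pi_good.comp f2) (Pi.and ?_ ?_))
    · exact pi_subset (ru_W1.comp f2) (ru_const hA)
    · exact pi_subset (hV.comp f1) ((hV'.comp f1).union (ru_W1.comp f2))
  refine h1.of_iff fun a => ⟨?_, ?_⟩
  · rintro ⟨i, h2, h3, h4⟩
    exact ⟨W1 i, h2.rec1, h3, h4⟩
  · rintro ⟨S, h2, h3, h4⟩
    obtain ⟨i, h5, h6, -⟩ := exists_good h2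
    exact ⟨i, h5, by rwa [h6], by rwa [h6]⟩

theorem sig_JF {V : α → Set ℕ} (hA : Re A) (hP : Ru P) (hV : Ru V) :
    Sig 3 fun a => JF A P (V a) := by
  unfold JF
  refine Sig.ex (p := fun a T => ∃ S, Rec S ∧ S ⊆ A ∧ V a ⊆ fin P T ∪ S) ?_
  exact sig_bd hA (hV.comp (f := fun x : α × List ℕ => x.1) (by fun_prop))
    ((ru_fin hP).comp (f := fun x : α × List ℕ => x.2) (by fun_prop))

theorem sig_JG {V : α → Set ℕ} (hA : Re A) (hP : Ru P) (hV : Ru V) :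
    Sig 3 fun a => JG A P (V a) := by
  unfold JG
  refine Sig.ex (p := fun a T => (∃ S, Rec S ∧ S ⊆ A ∧ V a ⊆ fin P T ∪ S) ∧
    ∀ n ∈ T, Br A (gd [] n) → Rec (V a ∩ P n ∩ cell (gd [] n))) (Sig.and ?_ ?_)
  · exact sig_bd hA (hV.comp (f := fun x : α × List ℕ => x.1) (by fun_prop))
      ((ru_fin hP).comp (f := fun x : α × List ℕ => x.2) (by fun_prop))
  · refine Sig.ball (p := fun (x : α × List ℕ) n => Br A (gd [] n) →
      Rec (V x.1 ∩ P n ∩ cell (gd [] n))) ?_ (l := fun x => x.2) (by fun_prop)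
    have f2 : Computable fun x : (α × List ℕ) × ℕ => gd ([] : List ℕ) x.2 := by fun_prop
    refine Sig.imp ((pi_Br hA).comp f2) (sig_rec ?_)
    exact ((hV.comp (f := fun x : (α × List ℕ) × ℕ => x.1.1) (by fun_prop)).inter
      (hP.comp (f := fun x : (α × List ℕ) × ℕ => x.2) (by fun_prop))).inter (ru_cell.comp f2)

theorem rec_fin_part (hP : Ru P) (hun : ∀ x, x ∈ A ↔ ∃ n, x ∈ P n)
    (hdis : ∀ n m x, x ∈ P n → x ∈ P m → n = m) {X : Set ℕ} (hX : Spl A X) {T : List ℕ}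
    {S : Set ℕ} (hS : Rec S) (hSA : S ⊆ A) (hXS : X ⊆ fin P T ∪ S) {n : ℕ} (hn : n ∉ T) :
    Rec (X ∩ P n) := by
  have h1 : Spl A (P n) := by
    have := spl_fin hP hun hdis [n]
    have h2 : fin P [n] = P n := by ext x; simp [fin]
    rwa [h2] at this
  refine (hX.inter h1).rec_of_subset hS hSA ?_
  rintro x ⟨hx, hxn⟩
  rcases hXS hx with ⟨m, hm, hxm⟩ | h
  · rw [hdis m n x hxm hxn] at hm
    exact (hn hm).elim
  · exact h

theorem fin_append (P : ℕ → Set ℕ) (T T' : List ℕ) : fin P (T ++ T') = fin P T ∪ fin P T' := by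
  ext x
  simp only [fin, List.mem_append, Set.mem_ofPred_eq, Set.mem_union]
  constructor
  · rintro ⟨n, hn | hn, h⟩
    exacts [Or.inl ⟨n, hn, h⟩, Or.inr ⟨n, hn, h⟩]
  · rintro (⟨n, hn, h⟩ | ⟨n, hn, h⟩)
    exacts [⟨n, Or.inl hn, h⟩, ⟨n, Or.inr hn, h⟩]

theorem JF.union {X Y : Set ℕ} (hX : JF A P X) (hY : JF A P Y) : JF A P (X ∪ Y) := by
  obtain ⟨T, S, h1, h2, h3⟩ := hX
  obtain ⟨T', S', h1', h2', h3'⟩ := hY
  refine ⟨T ++ T', S ∪ S', h1.union h1', Set.union_subset h2 h2', ?_⟩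
  rw [fin_append]
  rintro x (hx | hx)
  · rcases h3 hx with h | h
    exacts [Or.inl (Or.inl h), Or.inr (Or.inl h)]
  · rcases h3' hx with h | h
    exacts [Or.inl (Or.inr h), Or.inr (Or.inr h)]

theorem JF.down {X Y : Set ℕ} (hY : JF A P Y) (h : X ⊆ Y) : JF A P X := by
  obtain ⟨T, S, h1, h2, h3⟩ := hY
  exact ⟨T, S, h1, h2, h.trans h3⟩

theorem JG.jf {X : Set ℕ} (h : JG A P X) : JF A P X := by
  obtain ⟨T, h, -⟩ := h
  exact ⟨T, h⟩

theorem spl_P (hP : Ru P) (hun : ∀ x, x ∈ A ↔ ∃ n, x ∈ P n)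
    (hdis : ∀ n m x, x ∈ P n → x ∈ P m → n = m) (n : ℕ) : Spl A (P n) := by
  have := spl_fin hP hun hdis [n]
  have h2 : fin P [n] = P n := by ext x; simp [fin]
  rwa [h2] at this

theorem jg_iff (hP : Ru P) (hun : ∀ x, x ∈ A ↔ ∃ n, x ∈ P n)
    (hdis : ∀ n m x, x ∈ P n → x ∈ P m → n = m) {X : Set ℕ} (hX : Spl A X) :
    JG A P X ↔ JF A P X ∧ ∀ n, Br A (gd [] n) → Rec (X ∩ P n ∩ cell (gd [] n)) := by
  constructor
  · rintro ⟨T, ⟨S, h1, h2, h3⟩, h4⟩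
    refine ⟨⟨T, S, h1, h2, h3⟩, fun n hn => ?_⟩
    by_cases hT : n ∈ T
    · exact h4 n hT hn
    · exact (rec_fin_part hP hun hdis hX h1 h2 h3 hT).inter (rec_cell hn.1)
  · rintro ⟨⟨T, S, h1, h2, h3⟩, h4⟩
    exact ⟨T, ⟨S, h1, h2, h3⟩, fun n _ hn => h4 n hn⟩

theorem Spl.inter_rec {X R : Set ℕ} (hA : Re A) (hX : Spl A X) (hR : Rec R) : Spl A (X ∩ R) := by
  have h1 : X ∩ R = X ∩ (A ∩ R) := by
    ext x
    constructor
    · rintro ⟨h1, h2⟩; exact ⟨h1, hX.subset h1, h2⟩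
    · rintro ⟨h1, -, h2⟩; exact ⟨h1, h2⟩
  rw [h1]
  exact hX.inter (Spl.of_rec hA hR)

theorem rec_down {X Y R : Set ℕ} (hX : Spl A X) (hY : Spl A Y) (hXY : X ⊆ Y)
    (h : Rec (Y ∩ R)) (hR : Rec R) (hA : Re A) : Rec (X ∩ R) := by
  refine (Spl.inter_rec hA hX hR).rec_of_subset h ?_ ?_
  · rintro x ⟨hx, -⟩; exact hY.subset hx
  · rintro x ⟨hx, hx2⟩; exact ⟨hXY hx, hx2⟩

/-- The coding theorem. -/
theorem main_coding (hA : Re A) (hB : BoolSup A) :
    ∃ D₁ D₂, Re D₁ ∧ Re D₂ ∧ ∀ R, Rec R → (Zd A D₁ D₂ R ↔ Iat A R) := by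
  obtain ⟨P, hP, hun, hdis, hfr⟩ := Fr.friedberg hA
  have hP : Ru P := hP
  have hsp := spl_P hP hun hdis
  have hpair : Pi 2 fun p : ℕ × ℕ => W p.1 ∪ W p.2 = A ∧ W p.1 ∩ W p.2 = ∅ := by
    have f1 : Ru fun p : ℕ × ℕ => W p.1 := ru_W.comp (f := fun x : ℕ × ℕ => x.1) (by fun_prop)
    have f2 : Ru fun p : ℕ × ℕ => W p.2 := ru_W.comp (f := fun x : ℕ × ℕ => x.2) (by fun_prop)
    exact (pi_eq (f1.union f2) (ru_const hA)).and (pi_eq (f1.inter f2) (ru_const re_empty))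
  have f1 : Ru fun p : ℕ × ℕ => W p.1 := ru_W.comp (f := fun x : ℕ × ℕ => x.1) (by fun_prop)
  obtain ⟨D₁, hD₁, -, hJ₁⟩ := C3.code_sigma3 hA (JF A P)
    (Sig.and hpair.sig (sig_JF hA hP f1))
    (fun S h1 h2 => ⟨[], S, h1, h2, Set.subset_union_right⟩)
    (fun X Y _ _ h1 h2 => h1.union h2) (fun X Y _ _ h1 h2 => h2.down h1)
  obtain ⟨D₂, hD₂, -, hJ₂⟩ := C3.code_sigma3 hA (JG A P)
    (Sig.and hpair.sig (sig_JG hA hP f1))
    (fun S h1 h2 => ⟨[], ⟨S, h1, h2, Set.subset_union_right⟩, by simp⟩)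
    (fun X Y hX hY h1 h2 => by
      rw [jg_iff hP hun hdis hX] at h1
      rw [jg_iff hP hun hdis hY] at h2
      rw [jg_iff hP hun hdis (hX.union hY)]
      refine ⟨h1.1.union h2.1, fun n hn => ?_⟩
      have := (h1.2 n hn).union (h2.2 n hn)
      have e : (X ∪ Y) ∩ P n ∩ cell (gd [] n) =
          (X ∩ P n ∩ cell (gd [] n)) ∪ (Y ∩ P n ∩ cell (gd [] n)) := by
        rw [Set.union_inter_distrib_right, Set.union_inter_distrib_right]
      rwa [e])
    (fun X Y hX hY hXY h2 => by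
      rw [jg_iff hP hun hdis hX]
      rw [jg_iff hP hun hdis hY] at h2
      refine ⟨h2.1.down hXY, fun n hn => ?_⟩
      exact rec_down (hX.inter (hsp n)) (hY.inter (hsp n)) (Set.inter_subset_inter_left _ hXY)
        (h2.2 n hn) (rec_cell hn.1) hA)
  refine ⟨D₁, D₂, hD₁, hD₂, fun R hR => ⟨?_, fun hI => ?_⟩⟩
  · rintro ⟨U, hU, h1, h2⟩
    refine iat_of_br_finite hR ?_
    by_contra hinf
    have hinf : {τ | Br A τ ∧ ((cell τ ∩ R) \ A).Infinite}.Infinite := hinf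
    have hX0 : Spl A ((A ∩ R) \ U) := (Spl.of_rec hA hR).diff hU
    have hJ0 : JF A P ((A ∩ R) \ U) := by
      rw [hJ₁ _ hX0]
      refine h1 _ hX0 ?_ ?_
      · rintro x ⟨⟨-, hx⟩, -⟩; exact hx
      · rw [Set.eq_empty_iff_forall_notMem]
        rintro x ⟨⟨-, hx⟩, hx'⟩
        exact hx hx'
    obtain ⟨T, S, hS1, hS2, hS3⟩ := hJ0
    obtain ⟨τ, ⟨hbr, hτi⟩, hτT⟩ : ∃ τ, (Br A τ ∧ ((cell τ ∩ R) \ A).Infinite) ∧ encode τ ∉ T := by
      by_contra hcon
      push Not at hcon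
      apply hinf
      have : {τ | Br A τ ∧ ((cell τ ∩ R) \ A).Infinite} ⊆ encode ⁻¹' {n | n ∈ T} := by
        rintro τ ⟨h3, h4⟩
        exact hcon τ ⟨h3, h4⟩
      exact ((T.finite_toSet).preimage (encode_injective.injOn)).subset this
    have hcell : Rec (cell τ) := rec_cell hbr.1
    have hV : Spl A (P (encode τ) ∩ (R ∩ cell τ)) := Spl.inter_rec hA (hsp _) (hR.inter hcell)
    -- the part inside U
    have hV1 : Spl A (P (encode τ) ∩ (R ∩ cell τ) ∩ U) := hV.inter hU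
    have hJV : JG A P (P (encode τ) ∩ (R ∩ cell τ) ∩ U) := by
      rw [hJ₂ _ hV1]
      refine h2 _ hV1 Set.inter_subset_right ?_
      rw [← hJ₁ _ hV1]
      refine ⟨[encode τ], ∅, rec_empty, Set.empty_subset _, ?_⟩
      rintro x ⟨⟨hx, -⟩, -⟩
      left
      exact ⟨_, List.mem_singleton_self _, hx⟩
    rw [jg_iff hP hun hdis hV1] at hJV
    have h3 := hJV.2 (encode τ) (by rw [gd_encode]; exact hbr)
    rw [gd_encode] at h3
    have h3' : Rec (P (encode τ) ∩ (R ∩ cell τ) ∩ U) := by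
      have e : P (encode τ) ∩ (R ∩ cell τ) ∩ U =
          P (encode τ) ∩ (R ∩ cell τ) ∩ U ∩ P (encode τ) ∩ cell τ := by
        ext x
        simp only [Set.mem_inter_iff]
        tauto
      rwa [e]
    have h4 : Rec ((P (encode τ) ∩ (R ∩ cell τ)) \ U) := by
      refine (hV.diff hU).rec_of_subset hS1 hS2 ?_
      rintro x ⟨⟨hx, hxR, hxc⟩, hxU⟩
      rcases hS3 ⟨⟨(hsp _).subset hx, hxR⟩, hxU⟩ with ⟨m, hm, hxm⟩ | h
      · rw [hdis m _ x hxm hx] at hm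
        exact (hτT hm).elim
      · exact h
    have h5 : Rec ((R ∩ cell τ) ∩ P (encode τ)) := by
      have e : (R ∩ cell τ) ∩ P (encode τ) = (P (encode τ) ∩ (R ∩ cell τ) ∩ U) ∪
          ((P (encode τ) ∩ (R ∩ cell τ)) \ U) := by
        rw [Set.inter_union_sdiff, Set.inter_comm]
      rw [e]
      exact h3'.union h4
    refine not_rec_of_infinite hB hA (fun X hX hXi => Fr.exists_not_rec hX hXi)
      (hR.inter hcell) ?_ (hfr _ (hR.inter hcell) _ h5)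
    rwa [Set.inter_comm R]
  · have hfin := br_finite_of_iat hI
    have hfin' : (encode '' {τ | Br A τ ∧ ((cell τ ∩ R) \ A).Infinite}).Finite := hfin.image _
    obtain ⟨T, hT⟩ : ∃ T : List ℕ, ∀ n, n ∈ T ↔
        n ∈ encode '' {τ | Br A τ ∧ ((cell τ ∩ R) \ A).Infinite} := by
      refine ⟨hfin'.toFinset.toList, fun n => ?_⟩
      simp
    have hfT := spl_fin hP hun hdis T
    have hRA := Spl.of_rec hA hR
    refine ⟨(A ∩ R) \ fin P T, hRA.diff hfT, ?_, ?_⟩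
    · intro X hX hXR hXU
      rw [← hJ₁ _ hX]
      refine ⟨T, ∅, rec_empty, Set.empty_subset _, ?_⟩
      intro x hx
      left
      by_contra hxT
      have : x ∈ X ∩ ((A ∩ R) \ fin P T) := ⟨hx, ⟨hX.subset hx, hXR hx⟩, hxT⟩
      rw [hXU] at this
      exact this
    · intro V hV hVU hJV
      rw [← hJ₁ _ hV] at hJV
      rw [← hJ₂ _ hV, jg_iff hP hun hdis hV]
      refine ⟨hJV, fun n hn => ?_⟩
      by_cases hnT : n ∈ T
      · have : V ∩ P n ∩ cell (gd [] n) = ∅ := by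
          rw [Set.eq_empty_iff_forall_notMem]
          rintro x ⟨⟨hx, hxn⟩, -⟩
          exact (hVU hx).2 ⟨n, hnT, hxn⟩
        rw [this]; exact rec_empty
      · have hc : Rec (cell (gd [] n)) := rec_cell hn.1
        -- outside of finitely many elements `cell ∩ R` is inside `A`
        have hn' : encode (gd ([] : List ℕ) n) = n := by
          have h := Denumerable.decode_eq_ofNat (List ℕ) n
          have h2 : gd ([] : List ℕ) n = Denumerable.ofNat (List ℕ) n := by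
            unfold gd
            exact congrArg (fun o : Option (List ℕ) => o.getD []) h
          rw [h2]
          exact Denumerable.encode_ofNat n
        · have hfin2 : ((cell (gd [] n) ∩ R) \ A).Finite := by
            by_contra hcon
            apply hnT
            rw [hT]
            exact ⟨gd [] n, ⟨hn, hcon⟩, hn'⟩
          have hr : Rec (A ∩ (cell (gd [] n) ∩ R)) := by
            have e : A ∩ (cell (gd [] n) ∩ R) = (cell (gd [] n) ∩ R) \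
                ((cell (gd [] n) ∩ R) \ A) := by
              rw [Set.sdiff_sdiff_right_self, Set.inter_comm]
            rw [e]
            exact (hc.inter hR).diff (rec_finite hfin2)
          refine (Spl.inter_rec hA (hV.inter (hsp n)) hc).rec_of_subset hr Set.inter_subset_left ?_
          rintro x ⟨⟨hx, -⟩, hxc⟩
          exact ⟨hV.subset hx, hxc, (hVU hx).1.2⟩

end

end Pool.Agent.Helper446.EL
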