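import Pool.Agent.Helper446.Comp
import Pool.Agent.Helper446.EL.Basic


namespace Pool.Agent.Helper446.EL.Ct

open Pool.Agent.Helper446.RE Pool.Agent.Helper446.CB Pool.Agent.Helper446.EL


theorem ct_rec_union {X Y : Set ℕ} (hX : Rec X) (hY : Rec Y) : Rec (X ∪ Y) := cp_or hX hY

theorem ct_rec_inter {X Y : Set ℕ} (hX : Rec X) (hY : Rec Y) : Rec (X ∩ Y) := cp_and hX hY

theorem ct_rec_compl {X : Set ℕ} (hX : Rec X) : Rec Xᶜ := ComputablePred.not hX

theorem ct_rec_diff {X Y : Set ℕ} (hX : Rec X) (hY : Rec Y) : Rec (X \ Y) :=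
  cp_and hX (ComputablePred.not hY)

theorem ct_rec_empty : Rec ∅ :=
  RE.cp_of_re ((RE.const False).of_eq fun _ => by simp) ((RE.const True).of_eq fun _ => by simp)

theorem ct_rec_sing (n : ℕ) : Rec {n} :=
  RE.cp_of_re
    ((RE.eq (f := fun x : ℕ => x) (g := fun _ => n) Computable.id (Computable.const n)).of_eq
      fun _ => by simp)
    ((RE.ne (f := fun x : ℕ => x) (g := fun _ => n) Computable.id (Computable.const n)).of_eq
      fun _ => by simp)

theorem ct_rec_finite {X : Set ℕ} (h : X.Finite) : Rec X := by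
  induction X, h using Set.Finite.induction_on with
  | empty => exact ct_rec_empty
  | @insert a s ha hs ih =>
    rw [Set.insert_eq]
    exact ct_rec_union (ct_rec_sing a) ih

theorem ct_re_of_rec {X : Set ℕ} (h : Rec X) : Re X := ComputablePred.to_re h

theorem ct_re_union {X Y : Set ℕ} (hX : Re X) (hY : Re Y) : Re (X ∪ Y) := RE.or hX hY

theorem ct_re_inter {X Y : Set ℕ} (hX : Re X) (hY : Re Y) : Re (X ∩ Y) := RE.and hX hY

/-- union of a list of sets -/
def ctU (L : List (Set ℕ)) : Set ℕ := {x | ∃ a ∈ L, x ∈ a}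

theorem ct_mem_U {L : List (Set ℕ)} {x : ℕ} : x ∈ ctU L ↔ ∃ a ∈ L, x ∈ a := Iff.rfl

theorem ct_U_nil : ctU [] = ∅ := by
  ext x; rw [ct_mem_U]; simp

theorem ct_U_cons (a : Set ℕ) (L : List (Set ℕ)) : ctU (a :: L) = a ∪ ctU L := by
  ext x; rw [Set.mem_union, ct_mem_U, ct_mem_U]; simp

theorem ct_rec_U {L : List (Set ℕ)} (h : ∀ a ∈ L, Rec a) : Rec (ctU L) := by
  induction L with
  | nil => rw [ct_U_nil]; exact ct_rec_empty
  | cons a L ih =>
    rw [ct_U_cons]
    exact ct_rec_union (h a (by simp)) (ih fun b hb => h b (by simp [hb]))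

/-- small sets -/
def ctS (A X : Set ℕ) : Prop := (X \ A).Finite

theorem ctS_mono {A X Y : Set ℕ} (h : X ⊆ Y) (hY : ctS A Y) : ctS A X :=
  hY.subset (Set.sdiff_subset_sdiff_left h)

theorem ctS_empty (A : Set ℕ) : ctS A ∅ := by
  unfold ctS; simp

theorem ctS_union {A X Y : Set ℕ} (hX : ctS A X) (hY : ctS A Y) : ctS A (X ∪ Y) := by
  unfold ctS at *
  rw [Set.union_sdiff_distrib]
  exact hX.union hY

theorem ctS_of {A X Y Z : Set ℕ} (hX : ctS A X) (hY : ctS A Y) (h : Z ⊆ X ∪ Y) : ctS A Z :=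
  ctS_mono h (ctS_union hX hY)

theorem ctS_U {A X : Set ℕ} {L : List (Set ℕ)} (h : ∀ a ∈ L, ctS A (X ∩ a)) :
    ctS A (X ∩ ctU L) := by
  induction L with
  | nil => rw [ct_U_nil, Set.inter_empty]; exact ctS_empty A
  | cons a L ih =>
    rw [ct_U_cons, Set.inter_union_distrib_left]
    exact ctS_union (h a (by simp)) (ih fun b hb => h b (by simp [hb]))

theorem ct_iat_iff {A R : Set ℕ} :
    Iat A R ↔ ∃ L : List (Set ℕ), (∀ a ∈ L, AtomOf A a) ∧ ctS A (R \ ctU L) := by
  unfold Iat ctS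
  have h : ∀ L : List (Set ℕ), (R \ A) \ {x | ∃ a ∈ L, x ∈ a} = (R \ ctU L) \ A := by
    intro L
    rw [Set.sdiff_sdiff_comm]; rfl
  simp only [h]

theorem ct_atom_iff {A a R : Set ℕ} (ha : AtomOf A a) (hR : Rec R) :
    ctS A (a ∩ R) ↔ ¬ ctS A (a \ R) := by
  constructor
  · intro h1 h2
    exact ha.2.1 (ctS_of h1 h2 (by rw [Set.inter_union_sdiff]))
  · intro h
    rcases ha.2.2 (a ∩ R) (ct_rec_inter ha.1 hR) Set.inter_subset_left with h1 | h1
    · exact h1
    · rw [Set.sdiff_self_inter] at h1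
      exact absurd h1 h

theorem ct_atom_symm {A a b : Set ℕ} (ha : AtomOf A a) (hb : AtomOf A b)
    (h : ctS A (a \ b)) : ctS A (b \ a) := by
  by_contra hcon
  have h1 := (ct_atom_iff hb ha.1).2 hcon
  rw [Set.inter_comm] at h1
  exact (ct_atom_iff ha hb.1).1 h1 h

/-- equivalence of atoms -/
def ctSetoid (A : Set ℕ) : Setoid {a : Set ℕ // AtomOf A a} where
  r a b := ctS A (a.1 \ b.1)
  iseqv := by
    refine ⟨?_, ?_, ?_⟩
    · intro a
      rw [Set.sdiff_self]; exact ctS_empty A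
    · intro a b h
      exact ct_atom_symm a.2 b.2 h
    · intro a b c h1 h2
      refine ctS_of h1 h2 ?_
      intro x hx
      by_cases hb : x ∈ b.1
      · exact Or.inr ⟨hb, hx.2⟩
      · exact Or.inl ⟨hx.1, hb⟩

theorem ct_exists_rep {A : Set ℕ} (hU : ¬ Iat A Set.univ)
    (hI : ∀ R, Rec R → Iat A R ∨ Iat A Rᶜ) :
    ∃ rep : ℕ → Set ℕ, (∀ n, AtomOf A (rep n)) ∧
      (∀ m n, m ≠ n → ctS A (rep m ∩ rep n)) ∧
      ∀ a, AtomOf A a → ∃ n, ctS A (a \ rep n) ∧ ctS A (rep n \ a) := by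
  classical
  have hcount : Countable {a : Set ℕ // AtomOf A a} := by
    have h1 : ∀ a : {a : Set ℕ // AtomOf A a}, ∃ e, a.1 = EL.W e := by
      intro a
      obtain ⟨e, he⟩ := wst_univ (ct_re_of_rec a.2.1)
      refine ⟨e, ?_⟩
      ext x
      exact he x
    choose e he using h1
    exact Function.Injective.countable (f := e) (fun a b h => Subtype.ext (by rw [he a, he b, h]))
  let s := ctSetoid A
  have hcQ : Countable (Quotient s) := inferInstance
  have hinf : Infinite (Quotient s) := by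
    by_contra hni
    rw [not_infinite_iff_finite] at hni
    have := Fintype.ofFinite (Quotient s)
    set L : List (Set ℕ) := (Finset.univ : Finset (Quotient s)).toList.map
      (fun q => (Quotient.out q).1) with hL
    have hLat : ∀ a ∈ L, AtomOf A a := by
      intro a ha
      rw [hL, List.mem_map] at ha
      obtain ⟨q, -, rfl⟩ := ha
      exact (Quotient.out q).2
    have hLall : ∀ a, AtomOf A a → ctS A (a \ ctU L) := by
      intro a ha
      have h1 : (⟨a, ha⟩ : {a : Set ℕ // AtomOf A a}) ≈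
          Quotient.out (Quotient.mk s ⟨a, ha⟩) := Setoid.symm (Quotient.mk_out _)
      refine ctS_mono ?_ (h1 : ctS A (a \ (Quotient.out (Quotient.mk s ⟨a, ha⟩)).1))
      intro x hx
      refine ⟨hx.1, fun hx2 => hx.2 ?_⟩
      refine ct_mem_U.2 ⟨(Quotient.out (Quotient.mk s ⟨a, ha⟩)).1, ?_, hx2⟩
      rw [hL, List.mem_map]
      exact ⟨_, by simp, rfl⟩
    have hLrec : Rec (ctU L) := ct_rec_U fun a ha => (hLat a ha).1
    have key : ∀ R, R ⊆ (ctU L)ᶜ → Iat A R → ctS A R := by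
      intro R hR hRi
      obtain ⟨L1, h1, h2⟩ := ct_iat_iff.1 hRi
      have h3 : ctS A (R ∩ ctU L1) := by
        apply ctS_U
        intro a ha
        refine ctS_mono ?_ (hLall a (h1 a ha))
        intro x hx
        exact ⟨hx.2, hR hx.1⟩
      exact ctS_of h2 h3 (by
        intro x hx
        by_cases hx1 : x ∈ ctU L1
        · exact Or.inr ⟨hx, hx1⟩
        · exact Or.inl ⟨hx, hx1⟩)
    have hJns : ¬ ctS A (ctU L)ᶜ := by
      intro h1
      apply hU
      rw [ct_iat_iff]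
      refine ⟨L, hLat, ?_⟩
      rwa [← Set.compl_eq_univ_sdiff]
    have hJat : AtomOf A (ctU L)ᶜ := by
      refine ⟨ct_rec_compl hLrec, hJns, ?_⟩
      intro R' hR' hsub
      rcases hI R' hR' with h | h
      · exact Or.inl (key R' hsub h)
      · right
        apply key ((ctU L)ᶜ \ R') Set.sdiff_subset
        obtain ⟨L1, h1, h2⟩ := ct_iat_iff.1 h
        exact ct_iat_iff.2 ⟨L1, h1, ctS_mono (by
          intro x hx
          exact ⟨hx.1.2, hx.2⟩) h2⟩
    have h4 := hLall _ hJat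
    rw [Set.sdiff_eq, Set.inter_self] at h4
    exact hJns h4
  obtain ⟨hden⟩ := nonempty_denumerable (Quotient s)
  let E : Quotient s ≃ ℕ := Denumerable.eqv (Quotient s)
  refine ⟨fun n => (Quotient.out (E.symm n)).1, fun n => (Quotient.out (E.symm n)).2, ?_, ?_⟩
  · intro m n hmn
    rw [ct_atom_iff (Quotient.out (E.symm m)).2 (Quotient.out (E.symm n)).2.1]
    intro h
    apply hmn
    have h1 : Quotient.out (E.symm m) ≈ Quotient.out (E.symm n) := h
    rw [Quotient.out_equiv_out] at h1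
    exact E.symm.injective h1
  · intro a ha
    refine ⟨E (Quotient.mk s ⟨a, ha⟩), ?_⟩
    simp only [Equiv.symm_apply_apply]
    have h1 : (⟨a, ha⟩ : {a : Set ℕ // AtomOf A a}) ≈
          Quotient.out (Quotient.mk s ⟨a, ha⟩) := Setoid.symm (Quotient.mk_out _)
    exact ⟨h1, Setoid.symm h1⟩

/-- reduction -/
theorem ct_red {A W V : Set ℕ} (hW : Re W) (hV : Re V) (h1 : W ∪ V = Set.univ)
    (h2 : W ∩ V = A) : ∃ R, Rec R ∧ W = A ∪ R := by
  have hr : REPred fun x : ℕ × Bool => (x.2 = true ∧ x.1 ∈ W) ∨ (x.2 = false ∧ x.1 ∈ V) :=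
    RE.or (RE.and (RE.eq Computable.snd (Computable.const true)) (RE.comp hW Computable.fst))
      (RE.and (RE.eq Computable.snd (Computable.const false)) (RE.comp hV Computable.fst))
  obtain ⟨f, hf, hdom, hval⟩ := RE.uniformize
    (r := fun (n : ℕ) (b : Bool) => (b = true ∧ n ∈ W) ∨ (b = false ∧ n ∈ V)) hr
  have htot : ∀ n, (f n).Dom := by
    intro n
    rw [hdom]
    have : n ∈ W ∪ V := by rw [h1]; exact Set.mem_univ n
    rcases this with h | h
    · exact ⟨true, Or.inl ⟨rfl, h⟩⟩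
    · exact ⟨false, Or.inr ⟨rfl, h⟩⟩
  let F : ℕ → Bool := fun n => (f n).get (htot n)
  have hF : Computable F := by
    refine hf.of_eq_tot fun n => Part.get_mem (htot n)
  have hFv : ∀ n, (F n = true ∧ n ∈ W) ∨ (F n = false ∧ n ∈ V) := fun n =>
    hval n (F n) (Part.get_mem (htot n))
  refine ⟨{n | F n = true}, ComputablePred.computable_iff.2 ⟨F, hF, rfl⟩, ?_⟩
  ext n
  constructor
  · intro hn
    rcases hFv n with h | h
    · exact Or.inr h.1
    · left
      rw [← h2]
      exact ⟨hn, h.2⟩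
  · rintro (hn | hn)
    · rw [← h2] at hn
      exact hn.1
    · rcases hFv n with h | h
      · exact h.2
      · have h3 : F n = true := hn
        rw [h.1] at h3
        exact absurd h3 (by simp)

theorem ct_diff_eq (A R R' : Set ℕ) : (A ∪ R) \ (A ∪ R') = (R \ R') \ A := by
  ext x
  simp only [Set.mem_sdiff, Set.mem_union]
  tauto

theorem ct_fwd {A : Set ℕ} (hA : Re A) (hB : BoolSup A) (hU : ¬ Iat A Set.univ)
    (hI : ∀ R, Rec R → Iat A R ∨ Iat A Rᶜ) :
      ∃ f : Set ℕ → Set ℕ,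
        (∀ W : Set ℕ, REPred (fun n => n ∈ W) → A ⊆ W → ((f W).Finite ∨ (f W)ᶜ.Finite)) ∧
        (∀ T : Set ℕ, (T.Finite ∨ Tᶜ.Finite) →
          ∃ W : Set ℕ, REPred (fun n => n ∈ W) ∧ A ⊆ W ∧ f W = T) ∧
        (∀ W V : Set ℕ, REPred (fun n => n ∈ W) → REPred (fun n => n ∈ V) →
          A ⊆ W → A ⊆ V → ((W \ V).Finite ↔ f W ⊆ f V)) := by
  classical
  obtain ⟨rep, hat, hdis, hall⟩ := ct_exists_rep hU hI
  let g : Set ℕ → Set ℕ := fun R => {n | ctS A (rep n \ R)}
  have hg : ∀ R n, n ∈ g R ↔ ctS A (rep n \ R) := fun R n => Iff.rfl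
  have hgA : ∀ R, g (A ∪ R) = g R := by
    intro R
    ext n
    rw [hg, hg]
    unfold ctS
    have : (rep n \ (A ∪ R)) \ A = (rep n \ R) \ A := by
      ext x
      simp only [Set.mem_sdiff, Set.mem_union]
      tauto
    rw [this]
  have hgc : ∀ R, Rec R → g Rᶜ = (g R)ᶜ := by
    intro R hR
    ext n
    rw [Set.mem_compl_iff, hg, hg, ← ct_atom_iff (hat n) hR, Set.sdiff_compl]
  have hfin : ∀ R, Iat A R → (g R).Finite := by
    intro R hR
    obtain ⟨L, h1, h2⟩ := ct_iat_iff.1 hR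
    have h3 : ∀ a : Set ℕ, ∃ n : ℕ, AtomOf A a → ctS A (a \ rep n) ∧ ctS A (rep n \ a) := by
      intro a
      by_cases ha : AtomOf A a
      · obtain ⟨n, hn⟩ := hall a ha
        exact ⟨n, fun _ => hn⟩
      · exact ⟨0, fun h => absurd h ha⟩
    choose N hN using h3
    refine (List.finite_toSet (L.map N)).subset ?_
    intro n hn
    rw [hg] at hn
    by_contra hcon
    have h4 : ∀ a ∈ L, n ≠ N a := by
      intro a ha h5
      apply hcon
      show n ∈ L.map N
      rw [List.mem_map]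
      exact ⟨a, ha, h5.symm⟩
    have h5 : ctS A (rep n ∩ ctU L) := by
      apply ctS_U
      intro a ha
      refine ctS_of (hdis n (N a) (h4 a ha)) (hN a (h1 a ha)).1 ?_
      intro x hx
      by_cases hx2 : x ∈ rep (N a)
      · exact Or.inl ⟨hx.1, hx2⟩
      · exact Or.inr ⟨hx.2, hx2⟩
    apply (hat n).2.1
    refine ctS_of hn (ctS_union h2 h5) ?_
    intro x hx
    by_cases hx1 : x ∈ R
    · by_cases hx2 : x ∈ ctU L
      · exact Or.inr (Or.inr ⟨hx, hx2⟩)
      · exact Or.inr (Or.inl ⟨hx1, hx2⟩)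
    · exact Or.inl ⟨hx, hx1⟩
  have hdich : ∀ R, Rec R → (g R).Finite ∨ (g R)ᶜ.Finite := by
    intro R hR
    rcases hI R hR with h | h
    · exact Or.inl (hfin R h)
    · right
      rw [← hgc R hR]
      exact hfin _ h
  -- finite unions of atoms
  have hsurj0 : ∀ T : Set ℕ, T.Finite → ∃ R, Rec R ∧ g R = T := by
    intro T hT
    set L : List (Set ℕ) := hT.toFinset.toList.map rep with hL
    have hLm : ∀ a, a ∈ L ↔ ∃ n ∈ T, rep n = a := by
      intro a
      rw [hL, List.mem_map]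
      simp
    have hLrec : Rec (ctU L) := ct_rec_U fun a ha => by
      obtain ⟨n, -, rfl⟩ := (hLm a).1 ha
      exact (hat n).1
    refine ⟨ctU L, hLrec, ?_⟩
    ext n
    rw [hg]
    constructor
    · intro hn
      by_contra hcon
      have h5 : ctS A (rep n ∩ ctU L) := by
        apply ctS_U
        intro a ha
        obtain ⟨m, hm, rfl⟩ := (hLm a).1 ha
        exact hdis n m (fun h => hcon (h ▸ hm))
      exact (ct_atom_iff (hat n) hLrec).1 h5 hn
    · intro hn
      refine ctS_mono ?_ (ctS_empty A)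
      intro x hx
      exact absurd (ct_mem_U.2 ⟨rep n, (hLm _).2 ⟨n, hn, rfl⟩, hx.1⟩) hx.2
  have hsurj : ∀ T : Set ℕ, (T.Finite ∨ Tᶜ.Finite) → ∃ R, Rec R ∧ g R = T := by
    intro T hT
    rcases hT with hT | hT
    · exact hsurj0 T hT
    · obtain ⟨R, hR, hRT⟩ := hsurj0 _ hT
      exact ⟨Rᶜ, ct_rec_compl hR, by rw [hgc R hR, hRT, compl_compl]⟩
  have hform : ∀ W : Set ℕ, Re W → A ⊆ W → ∃ R, Rec R ∧ W = A ∪ R := by
    intro W hW hAW
    obtain ⟨V, hV, hAV, h1, h2⟩ := hB W hW hAW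
    exact ct_red hW hV h1 h2
  have hfind : ∀ Q, Rec Q → ¬ ctS A Q → ∃ n, ctS A (rep n \ Q) := by
    intro Q hQ hQs
    rcases hI Q hQ with h | h
    · obtain ⟨L, h1, h2⟩ := ct_iat_iff.1 h
      by_contra hcon
      push Not at hcon
      apply hQs
      have h3 : ctS A (Q ∩ ctU L) := by
        apply ctS_U
        intro a ha
        rw [Set.inter_comm, ct_atom_iff (h1 a ha) hQ]
        intro h4
        obtain ⟨n, hn1, hn2⟩ := hall a (h1 a ha)
        apply hcon n
        refine ctS_of hn2 h4 ?_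
        intro x hx
        by_cases hx2 : x ∈ a
        · exact Or.inr ⟨hx2, hx.2⟩
        · exact Or.inl ⟨hx.1, hx2⟩
      refine ctS_of h2 h3 ?_
      intro x hx
      by_cases hx1 : x ∈ ctU L
      · exact Or.inr ⟨hx, hx1⟩
      · exact Or.inl ⟨hx, hx1⟩
    · have h1 := hfin _ h
      rw [hgc Q hQ] at h1
      have h2 : (g Q).Nonempty := by
        by_contra hne
        rw [Set.not_nonempty_iff_eq_empty] at hne
        rw [hne, Set.compl_empty] at h1
        exact Set.infinite_univ h1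
      exact h2
  refine ⟨g, ?_, ?_, ?_⟩
  · intro W hW hAW
    obtain ⟨R, hR, rfl⟩ := hform W hW hAW
    rw [hgA]
    exact hdich R hR
  · intro T hT
    obtain ⟨R, hR, hRT⟩ := hsurj T hT
    exact ⟨A ∪ R, ct_re_union hA (ct_re_of_rec hR), Set.subset_union_left, by rw [hgA, hRT]⟩
  · intro W V hW hV hAW hAV
    obtain ⟨R, hR, rfl⟩ := hform W hW hAW
    obtain ⟨R', hR', rfl⟩ := hform V hV hAV
    rw [ct_diff_eq, hgA, hgA]
    constructor
    · intro h n hn
      rw [hg] at hn ⊢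
      refine ctS_of hn (h : ctS A (R \ R')) ?_
      intro x hx
      by_cases hx2 : x ∈ R
      · exact Or.inr ⟨hx2, hx.2⟩
      · exact Or.inl ⟨hx.1, hx2⟩
    · intro h
      by_contra hcon
      obtain ⟨n, hn⟩ := hfind (R \ R') (ct_rec_diff hR hR') hcon
      have h1 : n ∈ g R := by
        rw [hg]
        exact ctS_mono (X := rep n \ R) (Y := rep n \ (R \ R'))
          (fun x hx => ⟨hx.1, fun h2 => hx.2 h2.1⟩) hn
      have h2 := h h1
      rw [hg] at h2
      apply (hat n).2.1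
      refine ctS_of h2 hn ?_
      intro x hx
      by_cases hx2 : x ∈ R'
      · exact Or.inr ⟨hx, fun h3 => h3.2 hx2⟩
      · exact Or.inl ⟨hx, hx2⟩

theorem ct_bwd {A : Set ℕ} (hA : Re A)
      (hf : ∃ f : Set ℕ → Set ℕ,
        (∀ W : Set ℕ, REPred (fun n => n ∈ W) → A ⊆ W → ((f W).Finite ∨ (f W)ᶜ.Finite)) ∧
        (∀ T : Set ℕ, (T.Finite ∨ Tᶜ.Finite) →
          ∃ W : Set ℕ, REPred (fun n => n ∈ W) ∧ A ⊆ W ∧ f W = T) ∧
        (∀ W V : Set ℕ, REPred (fun n => n ∈ W) → REPred (fun n => n ∈ V) →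
          A ⊆ W → A ⊆ V → ((W \ V).Finite ↔ f W ⊆ f V))) :
    (BoolSup A ∧ ¬ Iat A Set.univ ∧ ∀ R, Rec R → Iat A R ∨ Iat A Rᶜ) := by
  classical
  obtain ⟨f, F1, F2, F3⟩ := hf
  have hcf_inter : ∀ S T : Set ℕ, (S.Finite ∨ Sᶜ.Finite) → (T.Finite ∨ Tᶜ.Finite) →
      ((S ∩ T).Finite ∨ (S ∩ T)ᶜ.Finite) := by
    intro S T hS hT
    rcases hS with hS | hS
    · exact Or.inl (hS.subset Set.inter_subset_left)
    rcases hT with hT | hT
    · exact Or.inl (hT.subset Set.inter_subset_right)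
    right
    rw [Set.compl_inter]
    exact hS.union hT
  have hcf_union : ∀ S T : Set ℕ, (S.Finite ∨ Sᶜ.Finite) → (T.Finite ∨ Tᶜ.Finite) →
      ((S ∪ T).Finite ∨ (S ∪ T)ᶜ.Finite) := by
    intro S T hS hT
    rcases hS with hS | hS
    · rcases hT with hT | hT
      · exact Or.inl (hS.union hT)
      · right
        exact hT.subset (Set.compl_subset_compl.2 Set.subset_union_right)
    · right
      exact hS.subset (Set.compl_subset_compl.2 Set.subset_union_left)
  have fmono : ∀ W V, Re W → Re V → A ⊆ W → A ⊆ V → W ⊆ V → f W ⊆ f V := by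
    intro W V hW hV h1 h2 h3
    rw [← F3 W V hW hV h1 h2, Set.sdiff_eq_empty.2 h3]
    exact Set.finite_empty
  have finter : ∀ W V, Re W → Re V → A ⊆ W → A ⊆ V → f (W ∩ V) = f W ∩ f V := by
    intro W V hW hV h1 h2
    have h3 := ct_re_inter hW hV
    have h4 : A ⊆ W ∩ V := Set.subset_inter h1 h2
    apply Set.Subset.antisymm
    · exact Set.subset_inter (fmono _ _ h3 hW h4 h1 Set.inter_subset_left)
        (fmono _ _ h3 hV h4 h2 Set.inter_subset_right)
    · obtain ⟨M, hM, hAM, hfM⟩ := F2 (f W ∩ f V) (hcf_inter _ _ (F1 W hW h1) (F1 V hV h2))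
      rw [← hfM, ← F3 M (W ∩ V) hM h3 hAM h4]
      have h5 : (M \ W).Finite := (F3 M W hM hW hAM h1).2 (by rw [hfM]; exact Set.inter_subset_left)
      have h6 : (M \ V).Finite := (F3 M V hM hV hAM h2).2 (by rw [hfM]; exact Set.inter_subset_right)
      rw [Set.sdiff_inter]
      exact h5.union h6
  have funion : ∀ W V, Re W → Re V → A ⊆ W → A ⊆ V → f (W ∪ V) = f W ∪ f V := by
    intro W V hW hV h1 h2
    have h3 := ct_re_union hW hV
    have h4 : A ⊆ W ∪ V := h1.trans Set.subset_union_left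
    apply Set.Subset.antisymm
    · obtain ⟨M, hM, hAM, hfM⟩ := F2 (f W ∪ f V) (hcf_union _ _ (F1 W hW h1) (F1 V hV h2))
      rw [← hfM, ← F3 (W ∪ V) M h3 hM h4 hAM]
      have h5 : (W \ M).Finite := (F3 W M hW hM h1 hAM).2 (by rw [hfM]; exact Set.subset_union_left)
      have h6 : (V \ M).Finite := (F3 V M hV hM h2 hAM).2 (by rw [hfM]; exact Set.subset_union_right)
      rw [Set.union_sdiff_distrib]
      exact h5.union h6
    · exact Set.union_subset (fmono _ _ hW h3 h1 h4 Set.subset_union_left)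
        (fmono _ _ hV h3 h2 h4 Set.subset_union_right)
  have hreU : Re Set.univ := by
    have := ct_re_of_rec (ct_rec_compl ct_rec_empty)
    rwa [Set.compl_empty] at this
  have fA : f A = ∅ := by
    obtain ⟨M, hM, hAM, hfM⟩ := F2 ∅ (Or.inl Set.finite_empty)
    rw [← Set.subset_empty_iff, ← hfM]
    exact fmono _ _ hA hM subset_rfl hAM hAM
  have fU : f Set.univ = Set.univ := by
    obtain ⟨M, hM, hAM, hfM⟩ := F2 Set.univ (Or.inr (by rw [Set.compl_univ]; exact Set.finite_empty))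
    apply Set.univ_subset_iff.1
    calc Set.univ = f M := hfM.symm
      _ ⊆ f Set.univ := fmono _ _ hM hreU hAM (Set.subset_univ _) (Set.subset_univ _)
  have hBool : BoolSup A := by
    intro W hW hAW
    have hcf : ((f W)ᶜ.Finite ∨ (f W)ᶜᶜ.Finite) := by
      rw [compl_compl]; exact (F1 W hW hAW).symm
    obtain ⟨V0, hV0, hAV0, hfV0⟩ := F2 (f W)ᶜ hcf
    have h1 : ((W ∩ V0) \ A).Finite := by
      rw [F3 (W ∩ V0) A (ct_re_inter hW hV0) hA (Set.subset_inter hAW hAV0) subset_rfl,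
        finter W V0 hW hV0 hAW hAV0, hfV0, Set.inter_compl_self]
      exact Set.empty_subset _
    have h2 : (Set.univ \ (W ∪ V0)).Finite := by
      rw [F3 Set.univ (W ∪ V0) hreU (ct_re_union hW hV0) (Set.subset_univ _)
        (hAW.trans Set.subset_union_left), funion W V0 hW hV0 hAW hAV0, hfV0, Set.union_compl_self]
      exact Set.subset_univ _
    refine ⟨(V0 ∩ ((W ∩ V0) \ A)ᶜ) ∪ (Set.univ \ (W ∪ V0)), ?_, ?_, ?_, ?_⟩
    · exact ct_re_union (ct_re_inter hV0 (ct_re_of_rec (ct_rec_compl (ct_rec_finite h1))))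
        (ct_re_of_rec (ct_rec_finite h2))
    · intro x hx
      exact Or.inl ⟨hAV0 hx, fun h => h.2 hx⟩
    · rw [Set.eq_univ_iff_forall]
      intro x
      by_cases hxW : x ∈ W
      · exact Or.inl hxW
      right
      by_cases hxV : x ∈ V0
      · exact Or.inl ⟨hxV, fun h => hxW h.1.1⟩
      · exact Or.inr ⟨Set.mem_univ x, fun h => h.elim hxW hxV⟩
    · ext x
      constructor
      · rintro ⟨hxW, hx | hx⟩
        · by_contra hxA
          exact hx.2 ⟨⟨hxW, hx.1⟩, hxA⟩
        · exact absurd (Or.inl hxW) hx.2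
      · intro hx
        exact ⟨hAW hx, Or.inl ⟨hAV0 hx, fun h => h.2 hx⟩⟩
  let g : Set ℕ → Set ℕ := fun R => f (A ∪ R)
  have hreg : ∀ R, Rec R → Re (A ∪ R) := fun R hR => ct_re_union hA (ct_re_of_rec hR)
  have hsub : ∀ R : Set ℕ, A ⊆ A ∪ R := fun R => Set.subset_union_left
  have gle : ∀ R R', Rec R → Rec R' → (ctS A (R \ R') ↔ g R ⊆ g R') := by
    intro R R' hR hR'
    have := F3 (A ∪ R) (A ∪ R') (hreg R hR) (hreg R' hR') (hsub R) (hsub R')
    rw [ct_diff_eq] at this
    exact this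
  have ginter : ∀ R R', Rec R → Rec R' → g (R ∩ R') = g R ∩ g R' := by
    intro R R' hR hR'
    show f (A ∪ (R ∩ R')) = f (A ∪ R) ∩ f (A ∪ R')
    rw [← finter _ _ (hreg R hR) (hreg R' hR') (hsub R) (hsub R'), Set.union_inter_distrib_left]
  have gunion : ∀ R R', Rec R → Rec R' → g (R ∪ R') = g R ∪ g R' := by
    intro R R' hR hR'
    show f (A ∪ (R ∪ R')) = f (A ∪ R) ∪ f (A ∪ R')
    rw [← funion _ _ (hreg R hR) (hreg R' hR') (hsub R) (hsub R'), Set.union_union_distrib_left]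
  have gempty : g ∅ = ∅ := by
    show f (A ∪ ∅) = ∅
    rw [Set.union_empty, fA]
  have guniv : g Set.univ = Set.univ := by
    show f (A ∪ Set.univ) = Set.univ
    rw [Set.union_univ, fU]
  have gcompl : ∀ R, Rec R → g Rᶜ = (g R)ᶜ := by
    intro R hR
    have h1 : g R ∩ g Rᶜ = ∅ := by
      rw [← ginter R Rᶜ hR (ct_rec_compl hR), Set.inter_compl_self, gempty]
    have h2 : g R ∪ g Rᶜ = Set.univ := by
      rw [← gunion R Rᶜ hR (ct_rec_compl hR), Set.union_compl_self, guniv]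
    ext x
    rw [Set.mem_compl_iff]
    constructor
    · intro hx hx2
      have : x ∈ g R ∩ g Rᶜ := ⟨hx2, hx⟩
      rw [h1] at this
      exact this
    · intro hx
      have : x ∈ g R ∪ g Rᶜ := by rw [h2]; exact Set.mem_univ x
      exact this.resolve_left hx
  have gsmall : ∀ R, Rec R → (ctS A R ↔ g R = ∅) := by
    intro R hR
    have := gle R ∅ hR ct_rec_empty
    rw [Set.sdiff_empty, gempty, Set.subset_empty_iff] at this
    exact this
  have gcf : ∀ R, Rec R → ((g R).Finite ∨ (g R)ᶜ.Finite) := fun R hR =>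
    F1 _ (hreg R hR) (hsub R)
  have gsurj : ∀ T : Set ℕ, T.Finite → ∃ R, Rec R ∧ g R = T := by
    intro T hT
    obtain ⟨W, hW, hAW, hfW⟩ := F2 T (Or.inl hT)
    obtain ⟨V, hV, hAV, h1, h2⟩ := hBool W hW hAW
    obtain ⟨R, hR, hWR⟩ := ct_red hW hV h1 h2
    exact ⟨R, hR, by rw [← hfW, hWR]⟩
  have gU : ∀ L : List (Set ℕ), (∀ a ∈ L, Rec a) → ∀ x, x ∈ g (ctU L) ↔ ∃ a ∈ L, x ∈ g a := by
    intro L
    induction L with
    | nil =>
      intro _ x
      rw [ct_U_nil, gempty]
      simp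
    | cons a L ih =>
      intro h x
      rw [ct_U_cons, gunion a _ (h a (by simp)) (ct_rec_U fun b hb => h b (by simp [hb])),
        Set.mem_union, ih fun b hb => h b (by simp [hb])]
      simp
  have gdiff : ∀ R R', Rec R → Rec R' → g (R \ R') = g R \ g R' := by
    intro R R' hR hR'
    rw [Set.sdiff_eq, ginter R _ hR (ct_rec_compl hR'), gcompl R' hR', Set.sdiff_eq]
  have atom_fin : ∀ a, AtomOf A a → (g a).Finite := by
    intro a ha
    apply Set.Subsingleton.finite
    intro m hm n hn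
    by_contra hmn
    obtain ⟨R', hR', hgR'⟩ := gsurj {m} (Set.finite_singleton m)
    rcases ha.2.2 (a ∩ R') (ct_rec_inter ha.1 hR') Set.inter_subset_left with h | h
    · have h1 := (gsmall _ (ct_rec_inter ha.1 hR')).1 h
      rw [ginter a R' ha.1 hR', hgR'] at h1
      have : m ∈ g a ∩ {m} := ⟨hm, rfl⟩
      rw [h1] at this
      exact this
    · rw [Set.sdiff_self_inter] at h
      have h1 := (gsmall _ (ct_rec_diff ha.1 hR')).1 h
      rw [gdiff a R' ha.1 hR', hgR'] at h1
      have : n ∈ g a \ {m} := ⟨hn, fun h2 => hmn (Set.mem_singleton_iff.1 h2).symm⟩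
      rw [h1] at this
      exact this
  have sing_atom : ∀ a n, Rec a → g a = {n} → AtomOf A a := by
    intro a n ha hga
    refine ⟨ha, ?_, ?_⟩
    · intro h
      have h1 := (gsmall a ha).1 h
      rw [hga] at h1
      exact Set.singleton_ne_empty n h1
    · intro R' hR' hR'a
      by_cases hn : n ∈ g R'
      · right
        apply (gsmall _ (ct_rec_diff ha hR')).2
        rw [gdiff a R' ha hR', hga, Set.sdiff_eq_empty]
        exact Set.singleton_subset_iff.2 hn
      · left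
        apply (gsmall _ hR').2
        have h1 : g R' ⊆ g a := (gle R' a hR' ha).1 (by
          rw [Set.sdiff_eq_empty.2 hR'a]; exact ctS_empty A)
        rw [hga] at h1
        rcases Set.subset_singleton_iff_eq.1 h1 with h2 | h2
        · exact h2
        · exact absurd (by rw [h2]; rfl) hn
  have iat_fin : ∀ R, Rec R → Iat A R → (g R).Finite := by
    intro R hR h
    obtain ⟨L, h1, h2⟩ := ct_iat_iff.1 h
    have hLrec : Rec (ctU L) := ct_rec_U fun a ha => (h1 a ha).1
    have h3 := (gle R (ctU L) hR hLrec).1 h2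
    refine Set.Finite.subset ?_ h3
    have h4 : g (ctU L) = ⋃ a ∈ {a | a ∈ L}, g a := by
      ext x
      rw [gU L (fun a ha => (h1 a ha).1)]
      simp
    rw [h4]
    exact Set.Finite.biUnion (List.finite_toSet L) (fun a ha => atom_fin a (h1 a ha))
  have fin_iat : ∀ R, Rec R → (g R).Finite → Iat A R := by
    intro R hR h
    have h1 : ∀ n : ℕ, ∃ a, Rec a ∧ g a = {n} := fun n => gsurj {n} (Set.finite_singleton n)
    choose at0 hat1 hat2 using h1
    rw [ct_iat_iff]
    refine ⟨h.toFinset.toList.map at0, ?_, ?_⟩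
    · intro a ha
      rw [List.mem_map] at ha
      obtain ⟨n, -, rfl⟩ := ha
      exact sing_atom _ n (hat1 n) (hat2 n)
    · have hrec : ∀ a ∈ h.toFinset.toList.map at0, Rec a := by
        intro a ha
        rw [List.mem_map] at ha
        obtain ⟨n, -, rfl⟩ := ha
        exact hat1 n
      rw [gle R _ hR (ct_rec_U hrec)]
      intro n hn
      rw [gU _ hrec]
      refine ⟨at0 n, ?_, ?_⟩
      · rw [List.mem_map]
        exact ⟨n, by simpa using hn, rfl⟩
      · rw [hat2 n]; rfl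
  refine ⟨hBool, ?_, ?_⟩
  · intro h
    have hru : Rec Set.univ := by
      have := ct_rec_compl ct_rec_empty
      rwa [Set.compl_empty] at this
    have h1 := iat_fin _ hru h
    rw [guniv] at h1
    exact Set.infinite_univ h1
  · intro R hR
    rcases gcf R hR with h | h
    · exact Or.inl (fin_iat R hR h)
    · right
      apply fin_iat _ (ct_rec_compl hR)
      rw [gcompl R hR]
      exact h

/-- The lattice of r.e. supersets of `A` modulo finite sets is the finite/cofinite algebra iff it is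
a Boolean algebra whose finite elements form a maximal ideal. -/
theorem cat_iff {A : Set ℕ} (hA : Re A) :
    (BoolSup A ∧ ¬ Iat A Set.univ ∧ ∀ R, Rec R → Iat A R ∨ Iat A Rᶜ) ↔
      ∃ f : Set ℕ → Set ℕ,
        (∀ W : Set ℕ, REPred (fun n => n ∈ W) → A ⊆ W → ((f W).Finite ∨ (f W)ᶜ.Finite)) ∧
        (∀ T : Set ℕ, (T.Finite ∨ Tᶜ.Finite) →
          ∃ W : Set ℕ, REPred (fun n => n ∈ W) ∧ A ⊆ W ∧ f W = T) ∧
        (∀ W V : Set ℕ, REPred (fun n => n ∈ W) → REPred (fun n => n ∈ V) →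
          A ⊆ W → A ⊆ V → ((W \ V).Finite ↔ f W ⊆ f V)) :=
  ⟨fun h => ct_fwd hA h.1 h.2.1 h.2.2, fun h => ct_bwd hA h⟩

end Pool.Agent.Helper446.EL.Ct
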