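import Pool.Agent.Helper446.EL.DefP
import Pool.Agent.Helper446.EL.Cod
import Pool.Agent.Helper446.EL.Ct

/-!
First-order definability of the predicates used.
-/

namespace Pool.Agent.Helper446.EL

open Pool.Agent.Helper446.RE Pool.Agent.Helper446.CB

/-- constructor for elements of the lattice -/
def mk (X : Set ℕ) (h : Re X) : ER := ⟨X, h⟩

theorem er_re (X : ER) : Re X.1 := X.2

theorem defEmpty : Def1 fun X => X.1 = ∅ := by
  intro Γ i
  refine (DefP.all (R := fun v (x : ER) => v i ≤ x) (DefP.le _ _)).of_iff fun v => ?_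
  constructor
  · intro h
    exact Set.subset_eq_empty (h (mk ∅ re_empty)) rfl
  · intro h x
    show (v i).1 ⊆ x.1
    rw [h]
    exact Set.empty_subset _

theorem defUniv : Def1 fun X => X.1 = Set.univ := by
  intro Γ i
  refine (DefP.all (R := fun v (x : ER) => x ≤ v i) (DefP.le _ _)).of_iff fun v => ?_
  constructor
  · intro h
    exact Set.univ_subset_iff.1 (h (mk _ re_univ))
  · intro h x
    show x.1 ⊆ (v i).1
    rw [h]
    exact Set.subset_univ _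

theorem defDisj : Def2 fun P Q => P.1 ∩ Q.1 = ∅ := by
  intro Γ i j
  refine (DefP.all (R := fun v (x : ER) => x ≤ v i → x ≤ v j → x.1 = ∅)
    ((DefP.le _ _).imp ((DefP.le _ _).imp (defEmpty _)))).of_iff fun v => ?_
  constructor
  · intro h
    exact h (mk ((v i).1 ∩ (v j).1) ((er_re _).inter (er_re _))) Set.inter_subset_left
      Set.inter_subset_right
  · intro h x h1 h2
    refine Set.subset_eq_empty ?_ h
    exact Set.subset_inter h1 h2

theorem defInter : Def3 fun P Q S => S.1 = P.1 ∩ Q.1 := by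
  intro Γ i j k
  refine (((DefP.le k i).and (DefP.le k j)).and
    (DefP.all (R := fun v (x : ER) => x ≤ v i → x ≤ v j → x ≤ v k)
    ((DefP.le _ _).imp ((DefP.le _ _).imp (DefP.le _ _))))).of_iff fun v => ?_
  constructor
  · rintro ⟨⟨h1, h2⟩, h3⟩
    refine subset_antisymm (Set.subset_inter h1 h2) ?_
    exact h3 (mk ((v i).1 ∩ (v j).1) ((er_re _).inter (er_re _))) Set.inter_subset_left
      Set.inter_subset_right
  · intro h
    refine ⟨⟨?_, ?_⟩, ?_⟩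
    · show (v k).1 ⊆ (v i).1
      rw [h]; exact Set.inter_subset_left
    · show (v k).1 ⊆ (v j).1
      rw [h]; exact Set.inter_subset_right
    · intro x h1 h2
      show x.1 ⊆ (v k).1
      rw [h]; exact Set.subset_inter h1 h2

theorem defUnion : Def3 fun P Q S => S.1 = P.1 ∪ Q.1 := by
  intro Γ i j k
  refine (((DefP.le i k).and (DefP.le j k)).and
    (DefP.all (R := fun v (x : ER) => v i ≤ x → v j ≤ x → v k ≤ x)
    ((DefP.le _ _).imp ((DefP.le _ _).imp (DefP.le _ _))))).of_iff fun v => ?_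
  constructor
  · rintro ⟨⟨h1, h2⟩, h3⟩
    refine subset_antisymm ?_ (Set.union_subset h1 h2)
    exact h3 (mk ((v i).1 ∪ (v j).1) ((er_re _).union (er_re _))) Set.subset_union_left
      Set.subset_union_right
  · intro h
    refine ⟨⟨?_, ?_⟩, ?_⟩
    · show (v i).1 ⊆ (v k).1
      rw [h]; exact Set.subset_union_left
    · show (v j).1 ⊆ (v k).1
      rw [h]; exact Set.subset_union_right
    · intro x h1 h2
      show (v k).1 ⊆ x.1
      rw [h]; exact Set.union_subset h1 h2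

theorem defCompl : Def2 fun P Q => Q.1 = P.1ᶜ := by
  intro Γ i j
  refine ((defDisj i j).and (DefP.ex (R := fun v (x : ER) => x.1 = (v i).1 ∪ (v j).1 ∧
    x.1 = Set.univ) ((defUnion _ _ _).and (defUniv _)))).of_iff fun v => ?_
  constructor
  · rintro ⟨h1, x, h2, h3⟩
    ext y
    constructor
    · intro hy hy2
      have : y ∈ (v i).1 ∩ (v j).1 := ⟨hy2, hy⟩
      rw [h1] at this
      exact this
    · intro hy
      have : y ∈ x.1 := by rw [h3]; trivial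
      rw [h2] at this
      exact this.resolve_left hy
  · intro h
    have h : (v j).1 = (v i).1ᶜ := h
    refine ⟨?_, mk _ re_univ, ?_, rfl⟩
    · show (v i).1 ∩ (v j).1 = ∅
      rw [h]; exact Set.inter_compl_self _
    · show Set.univ = (v i).1 ∪ (v j).1
      rw [h]; exact (Set.union_compl_self _).symm

theorem defRec : Def1 fun P => Rec P.1 := by
  intro Γ i
  refine (DefP.ex (R := fun v (x : ER) => x.1 = (v i).1ᶜ) (defCompl _ _)).of_iff fun v => ?_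
  constructor
  · rintro ⟨x, hx⟩
    refine rec_of_re (er_re _) ?_
    rw [← hx]; exact er_re _
  · intro h
    exact ⟨mk _ h.compl.re, rfl⟩

theorem defFin : Def1 fun P => P.1.Finite := by
  intro Γ i
  refine (DefP.all (R := fun v (x : ER) => x ≤ v i → Rec x.1)
    ((DefP.le _ _).imp (defRec _))).of_iff fun v => ?_
  constructor
  · intro h
    by_contra hinf
    obtain ⟨Y, h1, h2, h3⟩ := Fr.exists_not_rec (er_re (v i)) hinf
    exact h3 (h (mk Y h2) h1)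
  · intro h x hx
    exact rec_finite (h.subset hx)

theorem defSpl : Def2 fun A X => Spl A.1 X.1 := by
  intro Γ i j
  refine (DefP.ex (R := fun v (x : ER) => (v i).1 = (v j).1 ∪ x.1 ∧ (v j).1 ∩ x.1 = ∅)
    ((defUnion _ _ _).and (defDisj _ _))).of_iff fun v => ?_
  constructor
  · rintro ⟨x, h1, h2⟩
    exact ⟨er_re _, x.1, er_re _, h1.symm, h2⟩
  · rintro ⟨-, Y, hY, h1, h2⟩
    exact ⟨mk Y hY, h1.symm, h2⟩

theorem defJd : Def3 fun A D X => Jd A.1 D.1 X.1 := by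
  intro Γ i j k
  refine (DefP.ex (R := fun v (x : ER) => Rec x.1 ∧ x ≤ v i ∧
    ∃ y : ER, y.1 = (v k).1 ∩ (v j).1 ∧ y ≤ x) ((defRec _).and ((DefP.le _ _).and
      (DefP.ex (R := fun (v : Γ ⊕ Unit → ER) (y : ER) =>
        y.1 = (v (Sum.inl k)).1 ∩ (v (Sum.inl j)).1 ∧ y ≤ v (Sum.inr ()))
        ((defInter _ _ _).and (DefP.le _ _)))))).of_iff fun v => ?_
  constructor
  · rintro ⟨x, h1, h2, y, h3, h4⟩
    refine ⟨x.1, h1, h2, ?_⟩
    rw [← h3]; exact h4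
  · rintro ⟨S, h1, h2, h3⟩
    exact ⟨mk S h1.re, h1, h2, mk _ ((er_re (v k)).inter (er_re (v j))), rfl, h3⟩

theorem defZd : Def4 fun A D₁ D₂ R => Zd A.1 D₁.1 D₂.1 R.1 := by
  intro Γ i j k l
  refine (DefP.ex (R := fun v (u : ER) => Spl (v i).1 u.1 ∧
    (∀ x : ER, Spl (v i).1 x.1 → x ≤ v l → x.1 ∩ u.1 = ∅ → Jd (v i).1 (v j).1 x.1) ∧
    ∀ x : ER, Spl (v i).1 x.1 → x ≤ u → Jd (v i).1 (v j).1 x.1 → Jd (v i).1 (v k).1 x.1)
    ((defSpl _ _).and ((DefP.all (R := fun (v : Γ ⊕ Unit → ER) (x : ER) =>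
      Spl (v (Sum.inl i)).1 x.1 → x ≤ v (Sum.inl l) → x.1 ∩ (v (Sum.inr ())).1 = ∅ →
        Jd (v (Sum.inl i)).1 (v (Sum.inl j)).1 x.1)
      ((defSpl _ _).imp ((DefP.le _ _).imp ((defDisj _ _).imp (defJd _ _ _))))).and
      (DefP.all (R := fun (v : Γ ⊕ Unit → ER) (x : ER) =>
        Spl (v (Sum.inl i)).1 x.1 → x ≤ v (Sum.inr ()) →
        Jd (v (Sum.inl i)).1 (v (Sum.inl j)).1 x.1 → Jd (v (Sum.inl i)).1 (v (Sum.inl k)).1 x.1)
      ((defSpl _ _).imp ((DefP.le _ _).imp ((defJd _ _ _).imp (defJd _ _ _)))))))).of_iff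
    fun v => ?_
  constructor
  · rintro ⟨u, h1, h2, h3⟩
    refine ⟨u.1, h1, fun X hX h4 h5 => h2 (mk X hX.re) hX h4 h5, fun X hX h4 h5 =>
      h3 (mk X hX.re) hX h4 h5⟩
  · rintro ⟨U, h1, h2, h3⟩
    exact ⟨mk U h1.re, h1, fun x hx h4 h5 => h2 x.1 hx h4 h5, fun x hx h4 h5 => h3 x.1 hx h4 h5⟩

theorem defSmall : Def2 fun A R => (R.1 \ A.1).Finite := by
  intro Γ i j
  refine (DefP.ex (R := fun v (e : ER) => e.1.Finite ∧ ∃ u : ER, u.1 = (v i).1 ∪ e.1 ∧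
    v j ≤ u) ((defFin _).and (DefP.ex (R := fun (v : Γ ⊕ Unit → ER) (u : ER) =>
      u.1 = (v (Sum.inl i)).1 ∪ (v (Sum.inr ())).1 ∧ v (Sum.inl j) ≤ u)
      ((defUnion _ _ _).and (DefP.le _ _))))).of_iff fun v => ?_
  constructor
  · rintro ⟨e, h1, u, h2, h3⟩
    refine h1.subset ?_
    rintro x ⟨hx1, hx2⟩
    have h4 : x ∈ u.1 := h3 hx1
    rw [h2] at h4
    exact h4.resolve_left hx2
  · intro h
    refine ⟨mk _ (rec_finite h).re, h, mk _ ((er_re (v i)).union (rec_finite h).re), rfl, ?_⟩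
    intro x hx
    by_cases hxA : x ∈ (v i).1
    · exact Or.inl hxA
    · exact Or.inr ⟨hx, hxA⟩

theorem defAtom : Def2 fun A R => AtomOf A.1 R.1 := by
  intro Γ i j
  refine ((defRec j).and ((defSmall i j).not.and (DefP.all (R := fun v (x : ER) =>
    Rec x.1 → x ≤ v j → (x.1 \ (v i).1).Finite ∨ ∃ c : ER, c.1 = x.1ᶜ ∧ ∃ z : ER,
      z.1 = (v j).1 ∩ c.1 ∧ (z.1 \ (v i).1).Finite) ((defRec _).imp ((DefP.le _ _).imp
      ((defSmall _ _).or (DefP.ex (R := fun (v : Γ ⊕ Unit → ER) (c : ER) =>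
        c.1 = (v (Sum.inr ())).1ᶜ ∧ ∃ z : ER,
          z.1 = (v (Sum.inl j)).1 ∩ c.1 ∧ (z.1 \ (v (Sum.inl i)).1).Finite) ((defCompl _ _).and
          (DefP.ex (R := fun (v : (Γ ⊕ Unit) ⊕ Unit → ER) (z : ER) =>
            z.1 = (v (Sum.inl (Sum.inl j))).1 ∩ (v (Sum.inr ())).1 ∧
            (z.1 \ (v (Sum.inl (Sum.inl i))).1).Finite)
            ((defInter _ _ _).and (defSmall _ _))))))))))).of_iff fun v => ?_
  refine and_congr_right fun hR => and_congr_right fun hns => ?_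
  constructor
  · intro h R' hR' hsub
    rcases h (mk R' hR'.re) hR' hsub with h1 | ⟨c, h1, z, h2, h3⟩
    · exact Or.inl h1
    · right
      rw [h2, h1] at h3
      exact h3
  · intro h x hx hsub
    rcases h x.1 hx hsub with h1 | h1
    · exact Or.inl h1
    · right
      exact ⟨mk _ hx.compl.re, rfl, mk _ (hR.diff hx).re, rfl, h1⟩

/-- The first-order form of `Iat`. -/
def IatF (A R : Set ℕ) : Prop :=
  ∀ D₁ D₂ : ER, (∀ Q : ER, AtomOf A Q.1 → Zd A D₁.1 D₂.1 Q.1) → Zd A D₁.1 D₂.1 R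

theorem defIatF : Def2 fun A R => IatF A.1 R.1 := by
  intro Γ i j
  refine (DefP.all (R := fun v (D₁ : ER) => ∀ D₂ : ER,
    (∀ Q : ER, AtomOf (v i).1 Q.1 → Zd (v i).1 D₁.1 D₂.1 Q.1) → Zd (v i).1 D₁.1 D₂.1 (v j).1)
    (DefP.all (R := fun (v : Γ ⊕ Unit → ER) (D₂ : ER) =>
      (∀ Q : ER, AtomOf (v (Sum.inl i)).1 Q.1 →
        Zd (v (Sum.inl i)).1 (v (Sum.inr ())).1 D₂.1 Q.1) →
      Zd (v (Sum.inl i)).1 (v (Sum.inr ())).1 D₂.1 (v (Sum.inl j)).1)
      (DefP.imp (DefP.all (R := fun (v : (Γ ⊕ Unit) ⊕ Unit → ER) (Q : ER) =>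
        AtomOf (v (Sum.inl (Sum.inl i))).1 Q.1 →
        Zd (v (Sum.inl (Sum.inl i))).1 (v (Sum.inl (Sum.inr ()))).1 (v (Sum.inr ())).1 Q.1)
        ((defAtom _ _).imp (defZd _ _ _ _))) (defZd _ _ _ _)))).of_iff fun v => Iff.rfl

theorem defBool : Def1 fun A => BoolSup A.1 := by
  intro Γ i
  refine (DefP.all (R := fun v (w : ER) => v i ≤ w → ∃ x : ER, v i ≤ x ∧
    (∃ u : ER, u.1 = w.1 ∪ x.1 ∧ u.1 = Set.univ) ∧ (v i).1 = w.1 ∩ x.1)
    ((DefP.le _ _).imp (DefP.ex (R := fun (v : Γ ⊕ Unit → ER) (x : ER) => v (Sum.inl i) ≤ x ∧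
      (∃ u : ER, u.1 = (v (Sum.inr ())).1 ∪ x.1 ∧ u.1 = Set.univ) ∧
      (v (Sum.inl i)).1 = (v (Sum.inr ())).1 ∩ x.1) ((DefP.le _ _).and
      ((DefP.ex (R := fun (v : (Γ ⊕ Unit) ⊕ Unit → ER) (u : ER) =>
        u.1 = (v (Sum.inl (Sum.inr ()))).1 ∪ (v (Sum.inr ())).1 ∧ u.1 = Set.univ)
        ((defUnion _ _ _).and (defUniv _))).and (defInter _ _ _)))))).of_iff fun v => ?_
  constructor
  · intro h W hW hsub
    obtain ⟨x, h1, ⟨u, h2, h3⟩, h4⟩ := h (mk W hW) hsub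
    exact ⟨x.1, er_re _, h1, h2.symm.trans h3, h4.symm⟩
  · intro h w hw
    obtain ⟨V, h1, h2, h3, h4⟩ := h w.1 (er_re _) hw
    exact ⟨mk V h1, h2, ⟨mk _ ((er_re w).union h1), rfl, h3⟩, h4.symm⟩

/-! ### `Zd` is an ideal -/

section

variable {A D D₁ D₂ R Q Q' X Y : Set ℕ}

theorem Jd.down (h : Jd A D Y) (hXY : X ⊆ Y) : Jd A D X := by
  obtain ⟨S, h1, h2, h3⟩ := h
  exact ⟨S, h1, h2, (Set.inter_subset_inter_left _ hXY).trans h3⟩

theorem Jd.union (hX : Jd A D X) (hY : Jd A D Y) : Jd A D (X ∪ Y) := by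
  obtain ⟨S, h1, h2, h3⟩ := hX
  obtain ⟨S', h1', h2', h3'⟩ := hY
  refine ⟨S ∪ S', h1.union h1', Set.union_subset h2 h2', ?_⟩
  rw [Set.union_inter_distrib_right]
  exact Set.union_subset_union h3 h3'

theorem Zd.down (h : Zd A D₁ D₂ Q') (hQ : Q ⊆ Q') : Zd A D₁ D₂ Q := by
  obtain ⟨U, h1, h2, h3⟩ := h
  exact ⟨U, h1, fun X hX hXQ hXU => h2 X hX (hXQ.trans hQ) hXU, h3⟩

theorem Zd.union (hA : Re A) (hQ : Rec Q) (h : Zd A D₁ D₂ Q)
    (h' : Zd A D₁ D₂ Q') : Zd A D₁ D₂ (Q ∪ Q') := by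
  obtain ⟨U, h1, h2, h3⟩ := h
  obtain ⟨U', h1', h2', h3'⟩ := h'
  refine ⟨U ∪ U', h1.union h1', fun X hX hXQ hXU => ?_, fun X hX hXU hJ => ?_⟩
  · have e : X = (X ∩ Q) ∪ (X ∩ Qᶜ) := (Set.inter_union_compl X Q).symm
    rw [e]
    refine Jd.union (h2 _ (Spl.inter_rec hA hX hQ) Set.inter_subset_right ?_)
      (h2' _ (Spl.inter_rec hA hX hQ.compl) ?_ ?_)
    · rw [Set.eq_empty_iff_forall_notMem] at hXU ⊢
      rintro x ⟨⟨hx, -⟩, hxU⟩
      exact hXU x ⟨hx, Or.inl hxU⟩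
    · rintro x ⟨hx, hxQ⟩
      exact (hXQ hx).resolve_left hxQ
    · rw [Set.eq_empty_iff_forall_notMem] at hXU ⊢
      rintro x ⟨⟨hx, -⟩, hxU⟩
      exact hXU x ⟨hx, Or.inr hxU⟩
  · have e : X = (X ∩ U) ∪ (X \ U) := (Set.inter_union_sdiff X U).symm
    rw [e]
    refine Jd.union (h3 _ (hX.inter h1) Set.inter_subset_right (hJ.down Set.inter_subset_left))
      (h3' _ (hX.diff h1) ?_ (hJ.down Set.sdiff_subset))
    rintro x ⟨hx, hxU⟩
    exact (hXU hx).resolve_left hxU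

theorem Zd.small (hA : Re A) (hQ : Rec Q) (h : (Q \ A).Finite) : Zd A D₁ D₂ Q := by
  refine ⟨∅, Spl.empty hA, fun X hX hXQ _ => ⟨Q ∩ A, ?_, Set.inter_subset_right, ?_⟩,
    fun X hX hXU _ => ⟨∅, rec_empty, Set.empty_subset _, ?_⟩⟩
  · have e : Q ∩ A = Q \ (Q \ A) := by rw [Set.sdiff_sdiff_right_self]
    rw [e]
    exact hQ.diff (rec_finite h)
  · rintro x ⟨hx, -⟩
    exact ⟨hXQ hx, hX.subset hx⟩
  · rintro x ⟨hx, -⟩
    exact hXU hx

theorem Zd.list (hA : Re A) (L : List (Set ℕ)) (hL : ∀ a ∈ L, Rec a ∧ Zd A D₁ D₂ a) :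
    Rec {x | ∃ a ∈ L, x ∈ a} ∧ Zd A D₁ D₂ {x | ∃ a ∈ L, x ∈ a} := by
  induction L with
  | nil =>
    have e : {x | ∃ a ∈ ([] : List (Set ℕ)), x ∈ a} = ∅ := by ext x; simp
    rw [e]
    exact ⟨rec_empty, Zd.small hA rec_empty (by rw [Set.empty_sdiff]; exact Set.finite_empty)⟩
  | cons a L ih =>
    have e : {x | ∃ b ∈ a :: L, x ∈ b} = a ∪ {x | ∃ b ∈ L, x ∈ b} := by ext x; simp
    rw [e]
    have h1 := ih fun b hb => hL b (List.mem_cons_of_mem _ hb)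
    have h2 := hL a List.mem_cons_self
    exact ⟨h2.1.union h1.1, Zd.union hA h2.1 h2.2 h1.2⟩

theorem iat_iff (hA : Re A) (hB : BoolSup A) (hR : Rec R) : Iat A R ↔ IatF A R := by
  constructor
  · rintro ⟨L, hL, hfin⟩ D₁ D₂ h
    have h1 := Zd.list (D₁ := D₁.1) (D₂ := D₂.1) hA L fun a ha =>
      ⟨(hL a ha).1, h (mk a (hL a ha).1.re) (hL a ha)⟩
    have h2 : Rec (R \ {x | ∃ a ∈ L, x ∈ a}) := hR.diff h1.1
    have h3 : Zd A D₁.1 D₂.1 (R \ {x | ∃ a ∈ L, x ∈ a}) := by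
      refine Zd.small hA h2 (hfin.subset ?_)
      rintro x ⟨⟨hx1, hx2⟩, hx3⟩
      exact ⟨⟨hx1, hx3⟩, hx2⟩
    refine (Zd.union hA h2 h3 h1.2).down ?_
    intro x hx
    by_cases hxL : x ∈ {x | ∃ a ∈ L, x ∈ a}
    · exact Or.inr hxL
    · exact Or.inl ⟨hx, hxL⟩
  · intro h
    obtain ⟨D₁, D₂, h1, h2, h3⟩ := main_coding hA hB
    rw [← h3 R hR]
    refine h (mk D₁ h1) (mk D₂ h2) fun Q hQ => ?_
    show Zd A D₁ D₂ Q.1
    rw [h3 Q.1 hQ.1]
    refine ⟨[Q.1], by simpa using hQ, ?_⟩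
    have e : (Q.1 \ A) \ {x | ∃ a ∈ [Q.1], x ∈ a} = ∅ := by
      ext x; simp
    rw [e]
    exact Set.finite_empty

end

/-- The class of the problem in first-order form. -/
theorem defCat : Def1 fun A => BoolSup A.1 ∧ ¬ Iat A.1 Set.univ ∧
    ∀ R, Rec R → Iat A.1 R ∨ Iat A.1 Rᶜ := by
  intro Γ i
  refine ((defBool i).and ((DefP.all (R := fun v (u : ER) => u.1 = Set.univ → ¬ IatF (v i).1 u.1)
    ((defUniv _).imp (defIatF _ _).not)).and (DefP.all (R := fun v (x : ER) => Rec x.1 →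
      IatF (v i).1 x.1 ∨ ∃ c : ER, c.1 = x.1ᶜ ∧ IatF (v i).1 c.1) ((defRec _).imp
      ((defIatF _ _).or (DefP.ex (R := fun (v : Γ ⊕ Unit → ER) (c : ER) =>
        c.1 = (v (Sum.inr ())).1ᶜ ∧ IatF (v (Sum.inl i)).1 c.1)
        ((defCompl _ _).and (defIatF _ _)))))))).of_iff fun v => ?_
  refine and_congr_right fun hB => and_congr ?_ ?_
  · rw [iat_iff (er_re _) hB rec_univ]
    constructor
    · intro h; exact h (mk _ re_univ) rfl
    · intro h u hu; rwa [hu]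
  · constructor
    · intro h R hR
      rw [iat_iff (er_re _) hB hR, iat_iff (er_re _) hB hR.compl]
      rcases h (mk R hR.re) hR with h1 | ⟨c, h1, h2⟩
      · exact Or.inl h1
      · right
        rw [h1] at h2
        exact h2
    · intro h x hx
      have h1 := h x.1 hx
      rw [iat_iff (er_re _) hB hx, iat_iff (er_re _) hB hx.compl] at h1
      rcases h1 with h1 | h1
      · exact Or.inl h1
      · exact Or.inr ⟨mk _ hx.compl.re, rfl, h1⟩

end Pool.Agent.Helper446.EL
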