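import Pool.Agent.Helper446.EL.Basic
import Mathlib.ModelTheory.Order

/-!
Predicates definable by first-order formulas in the lattice of r.e. sets.
-/

namespace Pool.Agent.Helper446.EL

open FirstOrder FirstOrder.Language

/-- The lattice of r.e. sets. -/
abbrev ER : Type := {s : Set ℕ // REPred (fun n => n ∈ s)}

/-- The lattice of r.e. sets as a structure in the language of orders. -/
instance erStr : Language.order.Structure ER := orderStructure ER

/-- A predicate on tuples of r.e. sets, indexed by `Γ`, that is first-order definable. -/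
def DefP {Γ : Type} (R : (Γ → ER) → Prop) : Prop :=
  ∃ φ : Language.order.Formula Γ, ∀ v, φ.Realize v ↔ R v

variable {Γ Δ : Type}

theorem DefP.of_iff {R S : (Γ → ER) → Prop} (h : DefP R) (hRS : ∀ v, R v ↔ S v) : DefP S := by
  obtain ⟨φ, h⟩ := h
  exact ⟨φ, fun v => (h v).trans (hRS v)⟩

theorem DefP.not {R : (Γ → ER) → Prop} (h : DefP R) : DefP fun v => ¬ R v := by
  obtain ⟨φ, h⟩ := h
  refine ⟨φ.not, fun v => ?_⟩
  rw [Formula.realize_not, h]

theorem DefP.and {R S : (Γ → ER) → Prop} (h : DefP R) (h' : DefP S) :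
    DefP fun v => R v ∧ S v := by
  obtain ⟨φ, h⟩ := h
  obtain ⟨ψ, h'⟩ := h'
  refine ⟨φ ⊓ ψ, fun v => ?_⟩
  rw [Formula.realize_inf, h, h']

theorem DefP.or {R S : (Γ → ER) → Prop} (h : DefP R) (h' : DefP S) :
    DefP fun v => R v ∨ S v := by
  obtain ⟨φ, h⟩ := h
  obtain ⟨ψ, h'⟩ := h'
  refine ⟨φ ⊔ ψ, fun v => ?_⟩
  rw [Formula.realize_sup, h, h']

theorem DefP.imp {R S : (Γ → ER) → Prop} (h : DefP R) (h' : DefP S) :
    DefP fun v => R v → S v := by
  obtain ⟨φ, h⟩ := h
  obtain ⟨ψ, h'⟩ := h'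
  refine ⟨φ.imp ψ, fun v => ?_⟩
  rw [Formula.realize_imp, h, h']

theorem DefP.relabel {R : (Γ → ER) → Prop} (h : DefP R) (f : Γ → Δ) :
    DefP fun v : Δ → ER => R fun i => v (f i) := by
  obtain ⟨φ, h⟩ := h
  refine ⟨φ.relabel f, fun v => ?_⟩
  rw [Formula.realize_relabel, h]
  rfl

theorem DefP.ex {R : (Γ → ER) → ER → Prop}
    (h : DefP fun v : Γ ⊕ Unit → ER => R (fun i => v (Sum.inl i)) (v (Sum.inr ()))) :
    DefP fun v => ∃ x, R v x := by
  obtain ⟨φ, h⟩ := h
  refine ⟨φ.iExs Unit, fun v => ?_⟩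
  rw [Formula.realize_iExs]
  constructor
  · rintro ⟨x, hx⟩
    rw [h] at hx
    exact ⟨x (), hx⟩
  · rintro ⟨x, hx⟩
    refine ⟨fun _ => x, ?_⟩
    rw [h]
    exact hx

theorem DefP.all {R : (Γ → ER) → ER → Prop}
    (h : DefP fun v : Γ ⊕ Unit → ER => R (fun i => v (Sum.inl i)) (v (Sum.inr ()))) :
    DefP fun v => ∀ x, R v x := by
  refine (DefP.ex (R := fun v x => ¬ R v x) h.not).not.of_iff fun v => ?_
  push Not
  rfl

theorem DefP.le (i j : Γ) : DefP fun v : Γ → ER => v i ≤ v j := by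
  refine ⟨(Term.var (Sum.inl i)).le (Term.var (Sum.inl j)), fun v => ?_⟩
  have : Language.order.OrderedStructure ER := ⟨fun x => Iff.rfl⟩
  rw [Formula.Realize, Term.realize_le]
  rfl

theorem DefP.all_lt {R : ℕ → (Γ → ER) → Prop} (n : ℕ) (h : ∀ i < n, DefP (R i)) :
    DefP fun v => ∀ i < n, R i v := by
  induction n with
  | zero =>
    by_cases hΓ : Nonempty Γ
    · obtain ⟨i⟩ := hΓ
      exact (DefP.le i i).of_iff fun v => by simp
    · refine ⟨⊤, fun v => by simp⟩
  | succ n ih =>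
    refine ((ih fun i hi => h i (by omega)).and (h n (by omega))).of_iff fun v => ?_
    constructor
    · rintro ⟨h1, h2⟩ i hi
      rcases Nat.lt_succ_iff_lt_or_eq.1 hi with h | rfl
      exacts [h1 i h, h2]
    · intro h1
      exact ⟨fun i hi => h1 i (by omega), h1 n (by omega)⟩

/-- Definable unary, binary and ternary relations, usable in all contexts. -/
def Def1 (P : ER → Prop) : Prop := ∀ {Γ : Type} (i : Γ), DefP fun v : Γ → ER => P (v i)

def Def2 (P : ER → ER → Prop) : Prop :=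
  ∀ {Γ : Type} (i j : Γ), DefP fun v : Γ → ER => P (v i) (v j)

def Def3 (P : ER → ER → ER → Prop) : Prop :=
  ∀ {Γ : Type} (i j k : Γ), DefP fun v : Γ → ER => P (v i) (v j) (v k)

def Def4 (P : ER → ER → ER → ER → Prop) : Prop :=
  ∀ {Γ : Type} (i j k l : Γ), DefP fun v : Γ → ER => P (v i) (v j) (v k) (v l)

theorem er_structure_eq (S : FirstOrder.Language.order.Structure ER)
    (h : ∀ (r : FirstOrder.Language.order.Relations 2) (x y : ER),
      (@FirstOrder.Language.Structure.RelMap FirstOrder.Language.order ER S 2 r ![x, y]) ↔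
        x.1 ⊆ y.1) : S = erStr := by
  refine FirstOrder.Language.Structure.ext ?_ ?_
  · funext n f
    exact isEmptyElim f
  · funext n r
    cases r
    funext x
    have hx : x = ![x 0, x 1] := by
      funext i
      fin_cases i <;> rfl
    have h1 := h .le (x 0) (x 1)
    rw [← hx] at h1
    exact propext h1

end Pool.Agent.Helper446.EL
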