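import Pool.Agent.Helper446.EL.Def

/-!
Quasi-maximal sets in terms of `BoolSup` and `Iat`.
-/

namespace Pool.Agent.Helper446.EL

open Pool.Agent.Helper446.RE Pool.Agent.Helper446.CB

/-- Maximal r.e. sets. -/
def MaxRe (M : Set ℕ) : Prop :=
  REPred (fun n => n ∈ M) ∧ Mᶜ.Infinite ∧
    ∀ W : Set ℕ, REPred (fun n => n ∈ W) → M ⊆ W → (W \ M).Finite ∨ Wᶜ.Finite

variable {A : Set ℕ}

theorem re_sInter {F : Set (Set ℕ)} (hF : F.Finite) (h : ∀ M ∈ F, Re M) : Re (⋂₀ F) := by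
  induction F, hF using Set.Finite.induction_on with
  | empty => rw [Set.sInter_empty]; exact re_univ
  | insert _ _ ih =>
    rw [Set.sInter_insert]
    exact (h _ (Set.mem_insert _ _)).inter (ih fun M hM => h M (Set.mem_insert_of_mem _ hM))

theorem boolSup_of_qm {F : Set (Set ℕ)} (hF : F.Finite) (h : ∀ M ∈ F, MaxRe M) :
    BoolSup (⋂₀ F) := by
  intro W hW hA
  have hdich : ∀ M ∈ F, ¬ (Mᶜ \ W).Finite → (W \ M).Finite := by
    intro M hM hn
    rcases (h M hM).2.2 (W ∪ M) (Re.union hW (h M hM).1) Set.subset_union_right with h1 | h1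
    · refine h1.subset ?_
      rintro x ⟨hx, hxM⟩
      exact ⟨Or.inl hx, hxM⟩
    · refine (hn (h1.subset ?_)).elim
      rintro x ⟨hx, hxW⟩ (h2 | h2)
      exacts [hxW h2, hx h2]
  obtain ⟨V0, hV0⟩ : ∃ V0, V0 = ⋂₀ {M ∈ F | (Mᶜ \ W).Finite} := ⟨_, rfl⟩
  have hV0r : Re V0 := by
    rw [hV0]
    exact re_sInter (hF.subset (Set.sep_subset _ _)) fun M hM => (h M hM.1).1
  have hAV0 : ⋂₀ F ⊆ V0 := by
    rw [hV0]
    intro x hx M hM
    exact hx M hM.1
  have h1 : ((W ∩ V0) \ ⋂₀ F).Finite := by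
    have hsub : ((W ∩ V0) \ ⋂₀ F) ⊆ ⋃ M ∈ {M ∈ F | ¬ (Mᶜ \ W).Finite}, (W \ M) := by
      rintro x ⟨⟨hx1, hx2⟩, hx3⟩
      rw [Set.mem_sInter] at hx3
      push Not at hx3
      obtain ⟨M, hM, hxM⟩ := hx3
      refine Set.mem_iUnion₂.2 ⟨M, ⟨hM, fun hfin => hxM ?_⟩, hx1, hxM⟩
      rw [hV0] at hx2
      exact hx2 M ⟨hM, hfin⟩
    exact ((hF.subset (Set.sep_subset _ _)).biUnion fun M hM => hdich M hM.1 hM.2).subset hsub
  have h2 : ((W ∪ V0)ᶜ).Finite := by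
    have hsub : (W ∪ V0)ᶜ ⊆ ⋃ M ∈ {M ∈ F | (Mᶜ \ W).Finite}, (Mᶜ \ W) := by
      intro x hx
      rw [Set.mem_compl_iff, Set.mem_union, not_or] at hx
      obtain ⟨hxW, hxV⟩ := hx
      rw [hV0, Set.mem_sInter] at hxV
      push Not at hxV
      obtain ⟨M, hM, hxM⟩ := hxV
      exact Set.mem_iUnion₂.2 ⟨M, hM, hxM, hxW⟩
    exact ((hF.subset (Set.sep_subset _ _)).biUnion fun M hM => hM.2).subset hsub
  refine ⟨(V0 \ ((W ∩ V0) \ ⋂₀ F)) ∪ (W ∪ V0)ᶜ, ?_, ?_, ?_, ?_⟩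
  · exact (hV0r.inter (rec_finite h1).compl.re).union (rec_finite h2).re
  · intro x hx
    exact Or.inl ⟨hAV0 hx, fun h3 => h3.2 hx⟩
  · rw [Set.eq_univ_iff_forall]
    intro x
    by_cases hx : x ∈ W
    · exact Or.inl hx
    · right
      by_cases hx2 : x ∈ V0
      · exact Or.inl ⟨hx2, fun h3 => hx h3.1.1⟩
      · exact Or.inr fun h3 => h3.elim hx hx2
  · ext x
    constructor
    · rintro ⟨hxW, ⟨hx1, hx2⟩ | hx⟩
      · by_contra hxA
        exact hx2 ⟨⟨hxW, hx1⟩, hxA⟩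
      · exact (hx (Or.inl hxW)).elim
    · intro hx
      exact ⟨hA hx, Or.inl ⟨hAV0 hx, fun h3 => h3.2 hx⟩⟩

theorem atom_of_max (hB : BoolSup A) {M : Set ℕ} (hM : MaxRe M)
    (hAM : A ⊆ M) : ∃ R, AtomOf A R ∧ R \ A = Mᶜ := by
  obtain ⟨V, hV, hAV, h1, h2⟩ := hB M hM.1 hAM
  obtain ⟨R, hR, hVR⟩ := Ct.ct_red (A := A) hV hM.1 (by rw [Set.union_comm]; exact h1)
    (by rw [Set.inter_comm]; exact h2)
  have hRA : R \ A = Mᶜ := by
    ext x
    constructor
    · rintro ⟨hx, hxA⟩ hxM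
      have : x ∈ M ∩ V := ⟨hxM, by rw [hVR]; exact Or.inr hx⟩
      rw [h2] at this
      exact hxA this
    · intro hx
      have h3 : x ∈ M ∪ V := by rw [h1]; trivial
      have h4 : x ∈ V := h3.resolve_left hx
      rw [hVR] at h4
      have h5 : x ∉ A := fun h5 => hx (hAM h5)
      exact ⟨h4.resolve_left h5, h5⟩
  refine ⟨R, ⟨hR, ?_, fun R' hR' hsub => ?_⟩, hRA⟩
  · rw [hRA]; exact hM.2.1
  · have hiff : ∀ x, x ∈ R ∧ x ∉ A ↔ x ∉ M := fun x => Set.ext_iff.1 hRA x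
    rcases hM.2.2 (M ∪ R') (Re.union hM.1 hR'.re) Set.subset_union_left with h3 | h3
    · left
      refine h3.subset ?_
      rintro x ⟨hx, hxA⟩
      exact ⟨Or.inr hx, (hiff x).1 ⟨hsub hx, hxA⟩⟩
    · right
      refine h3.subset ?_
      rintro x ⟨⟨hx, hx'⟩, hxA⟩ (h4 | h4)
      · exact (hiff x).1 ⟨hx, hxA⟩ h4
      · exact hx' h4

theorem max_of_atom (hA : Re A) (hB : BoolSup A) {a E : Set ℕ} (ha : AtomOf A a)
    (hE : E.Finite) : MaxRe ((A ∪ aᶜ) \ E) := by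
  refine ⟨(hA.union ha.1.compl.re).inter (rec_finite hE).compl.re, ?_, fun W hW hsub => ?_⟩
  · intro hfin
    apply ha.2.1
    refine hfin.subset ?_
    rintro x ⟨hx, hxA⟩ ⟨h1 | h1, -⟩
    exacts [hxA h1, h1 hx]
  · -- work with `W ∪ E`
    have hW' : Re (W ∪ E) := Re.union hW (rec_finite hE).re
    have hsub' : A ∪ aᶜ ⊆ W ∪ E := by
      intro x hx
      by_cases hxE : x ∈ E
      · exact Or.inr hxE
      · exact Or.inl (hsub ⟨hx, hxE⟩)
    obtain ⟨V, hV, hAV, h1, h2⟩ := hB _ hW' (Set.subset_union_left.trans hsub')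
    obtain ⟨R, hR, hWR⟩ := Ct.ct_red hW' hV h1 h2
    rcases ha.2.2 (R ∩ a) (hR.inter ha.1) Set.inter_subset_right with h3 | h3
    · left
      refine (h3.union hE).subset ?_
      rintro x ⟨hx, hx2⟩
      by_cases hxE : x ∈ E
      · exact Or.inr hxE
      · left
        have h4 : x ∉ A ∪ aᶜ := fun h4 => hx2 ⟨h4, hxE⟩
        rw [Set.mem_union, not_or, Set.notMem_compl_iff] at h4
        have h5 : x ∈ W ∪ E := Or.inl hx
        rw [hWR] at h5
        exact ⟨⟨h5.resolve_left h4.1, h4.2⟩, h4.1⟩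
    · right
      refine (h3.union hE).subset ?_
      intro x hx
      by_cases hxE : x ∈ E
      · exact Or.inr hxE
      · left
        have h5 : x ∉ W ∪ E := fun h5 => h5.elim hx hxE
        have h4 : x ∉ A ∪ aᶜ := fun h4 => h5 (hsub' h4)
        rw [Set.mem_union, not_or, Set.notMem_compl_iff] at h4
        rw [hWR] at h5
        exact ⟨⟨h4.2, fun h6 => h5 (Or.inr h6.1)⟩, h4.1⟩

theorem qm_iff (hA : Re A) :
    (∃ F : Set (Set ℕ), F.Finite ∧ F.Nonempty ∧ (∀ M ∈ F, MaxRe M) ∧ A = ⋂₀ F) ↔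
      BoolSup A ∧ Iat A Set.univ ∧ ¬ Aᶜ.Finite := by
  classical
  constructor
  · rintro ⟨F, hF, ⟨M0, hM0⟩, hmax, rfl⟩
    have hB := boolSup_of_qm hF hmax
    refine ⟨hB, ?_, fun hfin => ?_⟩
    · have h1 : ∀ M, ∃ R, M ∈ F → AtomOf (⋂₀ F) R ∧ R \ ⋂₀ F = Mᶜ := by
        intro M
        by_cases hM : M ∈ F
        · obtain ⟨R, h2⟩ := atom_of_max hB (hmax M hM) (Set.sInter_subset_of_mem hM)
          exact ⟨R, fun _ => h2⟩
        · exact ⟨∅, fun h => (hM h).elim⟩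
      choose R hR using h1
      refine ⟨hF.toFinset.toList.map R, ?_, ?_⟩
      · intro a ha
        rw [List.mem_map] at ha
        obtain ⟨M, hM, rfl⟩ := ha
        rw [Finset.mem_toList, Set.Finite.mem_toFinset] at hM
        exact (hR M hM).1
      · have : ((Set.univ \ ⋂₀ F) \ {x | ∃ a ∈ hF.toFinset.toList.map R, x ∈ a}) = ∅ := by
          rw [Set.eq_empty_iff_forall_notMem]
          rintro x ⟨⟨-, hx⟩, hx2⟩
          rw [Set.mem_sInter] at hx
          push Not at hx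
          obtain ⟨M, hM, hxM⟩ := hx
          apply hx2
          have h3 : x ∈ R M \ ⋂₀ F := by rw [(hR M hM).2]; exact hxM
          refine ⟨R M, List.mem_map.2 ⟨M, ?_, rfl⟩, h3.1⟩
          rw [Finset.mem_toList, Set.Finite.mem_toFinset]
          exact hM
        rw [this]
        exact Set.finite_empty
    · exact (hmax M0 hM0).2.1 (hfin.subset (Set.compl_subset_compl.2 (Set.sInter_subset_of_mem hM0)))
  · rintro ⟨hB, ⟨L, hL, hfin⟩, hinf⟩
    obtain ⟨E, hE⟩ : ∃ E, E = (Set.univ \ A) \ {x | ∃ a ∈ L, x ∈ a} := ⟨_, rfl⟩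
    rw [← hE] at hfin
    have hLne : ∃ a0, a0 ∈ L := by
      by_contra hcon
      push Not at hcon
      apply hinf
      refine hfin.subset ?_
      intro x hx
      rw [hE]
      exact ⟨⟨trivial, hx⟩, fun ⟨a, ha, _⟩ => hcon a ha⟩
    obtain ⟨a0, ha0⟩ := hLne
    refine ⟨(fun a => (A ∪ aᶜ) \ E) '' {a | a ∈ L}, L.finite_toSet.image _,
      ⟨_, a0, ha0, rfl⟩, ?_, ?_⟩
    · rintro M ⟨a, ha, rfl⟩
      exact max_of_atom hA hB (hL a ha) hfin
    · ext x
      rw [Set.mem_sInter]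
      constructor
      · rintro hx M ⟨a, ha, rfl⟩
        refine ⟨Or.inl hx, fun hxE => ?_⟩
        rw [hE] at hxE
        exact hxE.1.2 hx
      · intro hx
        by_contra hxA
        have h1 : ∀ a ∈ L, x ∉ a := by
          intro a ha hxa
          have h2 := hx _ ⟨a, ha, rfl⟩
          rcases h2.1 with h3 | h3
          exacts [hxA h3, h3 hxa]
        have h2 := (hx _ ⟨a0, ha0, rfl⟩).2
        apply h2
        rw [hE]
        exact ⟨⟨trivial, hxA⟩, fun ⟨a, ha, hxa⟩ => h1 a ha hxa⟩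

/-- The class of quasi-maximal sets is definable. -/
theorem defQM : Def1 fun A =>
    ∃ F : Set (Set ℕ), F.Finite ∧ F.Nonempty ∧ (∀ M ∈ F, MaxRe M) ∧ A.1 = ⋂₀ F := by
  intro Γ i
  refine ((defBool i).and ((DefP.all (R := fun v (u : ER) => u.1 = Set.univ → IatF (v i).1 u.1)
    ((defUniv _).imp (defIatF _ _))).and (DefP.all (R := fun v (u : ER) => u.1 = Set.univ →
      ¬ (u.1 \ (v i).1).Finite) ((defUniv _).imp (defSmall _ _).not)))).of_iff fun v => ?_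
  show _ ↔ ∃ F : Set (Set ℕ), F.Finite ∧ F.Nonempty ∧ (∀ M ∈ F, MaxRe M) ∧ (v i).1 = ⋂₀ F
  rw [qm_iff (er_re _)]
  refine and_congr_right fun hB => and_congr ?_ ?_
  · rw [iat_iff (er_re _) hB rec_univ]
    constructor
    · intro h; exact h (mk _ re_univ) rfl
    · intro h u hu; rwa [hu]
  · constructor
    · intro h h2
      refine h (mk _ re_univ) rfl ?_
      show (Set.univ \ (v i).1).Finite
      rwa [← Set.compl_eq_univ_sdiff]
    · intro h u hu h2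
      rw [hu, ← Set.compl_eq_univ_sdiff] at h2
      exact h h2

end Pool.Agent.Helper446.EL
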