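import Pool.Agent.Helper446.EL.Basic

/-!
Closure properties of r.e. sets, computable sets and splittings.
-/

namespace Pool.Agent.Helper446.EL

open Pool.Agent.Helper446.RE Pool.Agent.Helper446.CB

variable {A X Y R S : Set ℕ}

theorem Re.union (hX : Re X) (hY : Re Y) : Re (X ∪ Y) := RE.or hX hY

theorem Re.inter (hX : Re X) (hY : Re Y) : Re (X ∩ Y) := RE.and hX hY

theorem Rec.re (h : Rec X) : Re X := ComputablePred.to_re h

theorem Rec.compl (h : Rec X) : Rec Xᶜ := ComputablePred.not h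

theorem Rec.union (hX : Rec X) (hY : Rec Y) : Rec (X ∪ Y) := cp_or hX hY

theorem Rec.inter (hX : Rec X) (hY : Rec Y) : Rec (X ∩ Y) := cp_and hX hY

theorem Rec.diff (hX : Rec X) (hY : Rec Y) : Rec (X \ Y) := hX.inter hY.compl

theorem rec_of_re (h1 : Re X) (h2 : Re Xᶜ) : Rec X := RE.cp_of_re h1 h2

theorem rec_univ : Rec Set.univ :=
  (RE.cp_eq (Computable.const ()) (Computable.const ())).of_eq fun _ => by simp

theorem rec_empty : Rec ∅ :=
  (RE.cp_eq (Computable.const ()) (Computable.const ())).not.of_eq fun _ => by simp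

theorem rec_finite (h : X.Finite) : Rec X := by
  classical
  have h1 : ComputablePred fun n : ℕ => n ∈ h.toFinset.toList :=
    cp_mem (f := fun n : ℕ => n) (l := fun _ => h.toFinset.toList) (by fun_prop)
      (Computable.const _)
  exact h1.of_eq fun n => by simp

theorem re_empty : Re ∅ := rec_empty.re

theorem re_univ : Re Set.univ := rec_univ.re

theorem W_re (e : ℕ) : Re (W e) := wst_re e

theorem exists_W (h : Re X) : ∃ e, X = W e := by
  obtain ⟨e, he⟩ := wst_univ h
  exact ⟨e, by ext x; exact he x⟩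

theorem Spl.re (h : Spl A X) : Re X := h.1

theorem Spl.subset (h : Spl A X) : X ⊆ A := by
  obtain ⟨-, Y, -, h, -⟩ := h
  rw [← h]; exact Set.subset_union_left

theorem Spl.diff_re (h : Spl A X) : Re (A \ X) := by
  obtain ⟨-, Y, hY, h1, h2⟩ := h
  have : A \ X = Y := by
    ext x
    constructor
    · rintro ⟨hx, hxX⟩
      rw [← h1] at hx
      exact hx.resolve_left hxX
    · intro hx
      refine ⟨by rw [← h1]; exact Or.inr hx, fun hxX => ?_⟩
      have : x ∈ X ∩ Y := ⟨hxX, hx⟩
      rw [h2] at this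
      exact this
  rwa [this]

theorem spl_iff : Spl A X ↔ Re X ∧ X ⊆ A ∧ Re (A \ X) := by
  constructor
  · intro h; exact ⟨h.re, h.subset, h.diff_re⟩
  · rintro ⟨h1, h2, h3⟩
    exact ⟨h1, A \ X, h3, Set.union_sdiff_cancel h2, Set.inter_sdiff_self _ _⟩

theorem Spl.self (hA : Re A) : Spl A A := by
  rw [spl_iff]
  exact ⟨hA, subset_rfl, by rw [Set.sdiff_self]; exact re_empty⟩

theorem Spl.empty (hA : Re A) : Spl A ∅ := by
  rw [spl_iff]
  exact ⟨re_empty, Set.empty_subset _, by rwa [Set.sdiff_empty]⟩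

theorem Spl.diff' (h : Spl A X) : Spl A (A \ X) := by
  rw [spl_iff]
  refine ⟨h.diff_re, Set.sdiff_subset, ?_⟩
  rw [Set.sdiff_sdiff_cancel_left h.subset]
  exact h.re

theorem Spl.inter (h : Spl A X) (h' : Spl A Y) : Spl A (X ∩ Y) := by
  rw [spl_iff]
  refine ⟨h.re.inter h'.re, Set.inter_subset_left.trans h.subset, ?_⟩
  rw [Set.sdiff_inter]
  exact h.diff_re.union h'.diff_re

theorem Spl.union (h : Spl A X) (h' : Spl A Y) : Spl A (X ∪ Y) := by
  rw [spl_iff]
  refine ⟨h.re.union h'.re, Set.union_subset h.subset h'.subset, ?_⟩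
  have : A \ (X ∪ Y) = (A \ X) ∩ (A \ Y) := by
    ext x; simp only [Set.mem_sdiff, Set.mem_union, Set.mem_inter_iff]; tauto
  rw [this]
  exact h.diff_re.inter h'.diff_re

theorem Spl.diff (h : Spl A X) (h' : Spl A Y) : Spl A (X \ Y) := by
  have : X \ Y = X ∩ (A \ Y) := by
    ext x; simp only [Set.mem_sdiff, Set.mem_inter_iff]
    exact ⟨fun hx => ⟨hx.1, h.subset hx.1, hx.2⟩, fun hx => ⟨hx.1, hx.2.2⟩⟩
  rw [this]
  exact h.inter h'.diff'

theorem Spl.of_rec (hA : Re A) (hR : Rec R) : Spl A (A ∩ R) := by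
  rw [spl_iff]
  refine ⟨hA.inter hR.re, Set.inter_subset_left, ?_⟩
  have : A \ (A ∩ R) = A ∩ Rᶜ := by
    ext x; simp only [Set.mem_sdiff, Set.mem_inter_iff, Set.mem_compl_iff]; tauto
  rw [this]
  exact hA.inter hR.compl.re

theorem Spl.of_recSub (hA : Re A) (hS : Rec S) (hSA : S ⊆ A) : Spl A S := by
  have h := Spl.of_rec hA hS
  rwa [Set.inter_eq_self_of_subset_right hSA] at h

/-- A split contained in a computable subset is computable. -/
theorem Spl.rec_of_subset (h : Spl A X) (hS : Rec S) (hSA : S ⊆ A) (hXS : X ⊆ S) : Rec X := by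
  refine rec_of_re h.re ?_
  have : Xᶜ = Sᶜ ∪ (A \ X) := by
    ext x
    simp only [Set.mem_compl_iff, Set.mem_union, Set.mem_sdiff]
    constructor
    · intro hx
      by_cases hxS : x ∈ S
      · exact Or.inr ⟨hSA hxS, hx⟩
      · exact Or.inl hxS
    · rintro (hx | hx) hxX
      · exact hx (hXS hxX)
      · exact hx.2 hxX
  rw [this]
  exact hS.compl.re.union h.diff_re

/-- Under `BoolSup` no computable set has a computable infinite part outside `A`. -/
theorem not_rec_of_infinite (hB : BoolSup A) (hA : Re A)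
    (hex : ∀ X : Set ℕ, Re X → X.Infinite → ∃ Y, Y ⊆ X ∧ Re Y ∧ ¬ Rec Y)
    (hR : Rec R) (hinf : (R \ A).Infinite) : ¬ Rec (R ∩ A) := by
  intro hrec
  have hE : Rec (R \ A) := by
    have : R \ A = R \ (R ∩ A) := by
      ext x; simp only [Set.mem_sdiff, Set.mem_inter_iff]; tauto
    rw [this]
    exact hR.diff hrec
  obtain ⟨Y, hYE, hY, hYn⟩ := hex _ hE.re hinf
  obtain ⟨V, hV, hAV, h1, h2⟩ := hB (A ∪ Y) (hA.union hY) Set.subset_union_left
  apply hYn
  refine rec_of_re hY ?_
  have : Yᶜ = (R \ A)ᶜ ∪ ((R \ A) ∩ V) := by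
    ext x
    simp only [Set.mem_compl_iff, Set.mem_union, Set.mem_inter_iff]
    constructor
    · intro hx
      by_cases hxE : x ∈ R \ A
      · right
        refine ⟨hxE, ?_⟩
        have h3 : x ∈ (A ∪ Y) ∪ V := by rw [h1]; trivial
        rcases h3 with (h3 | h3) | h3
        · exact (hxE.2 h3).elim
        · exact (hx h3).elim
        · exact h3
      · exact Or.inl hxE
    · rintro (hx | hx) hxY
      · exact hx (hYE hxY)
      · have h3 : x ∈ (A ∪ Y) ∩ V := ⟨Or.inr hxY, hx.2⟩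
        rw [h2] at h3
        exact hx.1.2 h3
  rw [this]
  exact hE.compl.re.union (hE.re.inter hV)

end Pool.Agent.Helper446.EL
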