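import Pool.Agent.Helper446.EL.Split

/-!
The canonical tree of cells of the Boolean algebra of computable sets.
-/

namespace Pool.Agent.Helper446.EL

open Pool.Agent.Helper446.RE Pool.Agent.Helper446.CB

/-- The two r.e. sets with index `i`. -/
def W1 (i : ℕ) : Set ℕ := W i.unpair.1
def W2 (i : ℕ) : Set ℕ := W i.unpair.2

/-- The pair number `i` consists of complementary sets. -/
def good (i : ℕ) : Prop := W1 i ∪ W2 i = Set.univ ∧ W1 i ∩ W2 i = ∅

theorem good.not_mem {i x : ℕ} (h : good i) (h1 : x ∈ W1 i) : x ∉ W2 i := by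
  intro h2
  have : x ∈ W1 i ∩ W2 i := ⟨h1, h2⟩
  rw [h.2] at this
  exact this

theorem good.mem {i x : ℕ} (h : good i) : x ∈ W1 i ∨ x ∈ W2 i := by
  have : x ∈ W1 i ∪ W2 i := by rw [h.1]; trivial
  exact this

theorem good.compl_eq {i : ℕ} (h : good i) : (W1 i)ᶜ = W2 i := by
  ext x
  constructor
  · intro hx
    exact h.mem.resolve_left hx
  · intro hx hx1
    exact h.not_mem hx1 hx

theorem good.rec1 {i : ℕ} (h : good i) : Rec (W1 i) :=
  rec_of_re (W_re _) (by rw [h.compl_eq]; exact W_re _)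

theorem good.rec2 {i : ℕ} (h : good i) : Rec (W2 i) := by
  rw [← h.compl_eq]; exact h.rec1.compl

theorem exists_good {R : Set ℕ} (hR : Rec R) : ∃ e, good e ∧ W1 e = R ∧ W2 e = Rᶜ := by
  obtain ⟨a, ha⟩ := exists_W hR.re
  obtain ⟨b, hb⟩ := exists_W hR.compl.re
  have h1 : W1 (Nat.pair a b) = R := by simp [W1, ← ha]
  have h2 : W2 (Nat.pair a b) = Rᶜ := by simp [W2, ← hb]
  refine ⟨Nat.pair a b, ⟨?_, ?_⟩, h1, h2⟩
  · rw [h1, h2]; exact Set.union_compl_self R
  · rw [h1, h2]; exact Set.inter_compl_self R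

/-- The cell of a node. -/
def cell (τ : List ℕ) : Set ℕ :=
  {x | ∀ i < τ.length, (τ[i]? = some 0 → x ∈ W1 i) ∧ (τ[i]? = some 1 → x ∈ W2 i)}

/-- The node follows the true list of complementary pairs. -/
def valid (τ : List ℕ) : Prop :=
  ∀ i < τ.length, (good i ∧ (τ[i]? = some 0 ∨ τ[i]? = some 1)) ∨ (¬ good i ∧ τ[i]? = some 2)

/-- Branching nodes. -/
def Br (A : Set ℕ) (τ : List ℕ) : Prop :=
  valid τ ∧ good τ.length ∧ ((cell τ ∩ W1 τ.length) \ A).Infinite ∧
    ((cell τ ∩ W2 τ.length) \ A).Infinite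

theorem valid_nil : valid [] := by intro i hi; simp at hi

theorem cell_nil : cell [] = Set.univ := by
  ext x; simp [cell]

theorem valid_append {τ : List ℕ} {b : ℕ} : valid (τ ++ [b]) ↔ valid τ ∧
    ((good τ.length ∧ (b = 0 ∨ b = 1)) ∨ (¬ good τ.length ∧ b = 2)) := by
  constructor
  · intro h
    refine ⟨fun i hi => ?_, ?_⟩
    · have := h i (by simp; omega)
      rwa [List.getElem?_append_left hi] at this
    · have := h τ.length (by simp)
      simpa using this
  · rintro ⟨h1, h2⟩ i hi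
    rw [List.length_append, List.length_singleton] at hi
    rcases Nat.lt_succ_iff_lt_or_eq.1 hi with hi | rfl
    · rw [List.getElem?_append_left hi]
      exact h1 i hi
    · simpa using h2

theorem mem_cell_append {τ : List ℕ} {b x : ℕ} : x ∈ cell (τ ++ [b]) ↔ x ∈ cell τ ∧
    (b = 0 → x ∈ W1 τ.length) ∧ (b = 1 → x ∈ W2 τ.length) := by
  constructor
  · intro h
    refine ⟨fun i hi => ?_, ?_⟩
    · have := h i (by simp; omega)
      rwa [List.getElem?_append_left hi] at this
    · have := h τ.length (by simp)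
      simpa using this
  · rintro ⟨h1, h2⟩ i hi
    rw [List.length_append, List.length_singleton] at hi
    rcases Nat.lt_succ_iff_lt_or_eq.1 hi with hi | rfl
    · rw [List.getElem?_append_left hi]
      exact h1 i hi
    · simpa using h2

theorem cell_append (τ : List ℕ) (b : ℕ) : cell (τ ++ [b]) =
    cell τ ∩ (if b = 0 then W1 τ.length else if b = 1 then W2 τ.length else Set.univ) := by
  ext x
  rw [mem_cell_append, Set.mem_inter_iff]
  refine and_congr_right fun _ => ?_
  split_ifs with h1 h2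
  · simp [h1]
  · simp [h2]
  · simp [h1, h2]

theorem rec_cell {τ : List ℕ} (h : valid τ) : Rec (cell τ) := by
  induction τ using List.reverseRecOn with
  | nil => rw [cell_nil]; exact rec_univ
  | append_singleton τ b ih =>
    rw [valid_append] at h
    rw [cell_append]
    refine (ih h.1).inter ?_
    rcases h.2 with ⟨hg, rfl | rfl⟩ | ⟨-, rfl⟩
    · simpa using hg.rec1
    · simpa using hg.rec2
    · simpa using rec_univ

theorem cell_prefix {σ τ : List ℕ} (h : σ <+: τ) : cell τ ⊆ cell σ := by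
  obtain ⟨ρ, rfl⟩ := h
  intro x hx i hi
  have := hx i (by rw [List.length_append]; omega)
  rwa [List.getElem?_append_left hi] at this

theorem cell_dich {τ : List ℕ} (h : valid τ) {e : ℕ} (he : good e) (hl : e < τ.length) :
    cell τ ⊆ W1 e ∨ cell τ ⊆ W2 e := by
  rcases h e hl with ⟨-, h1 | h1⟩ | ⟨h1, -⟩
  · left; intro x hx; exact (hx e hl).1 h1
  · right; intro x hx; exact (hx e hl).2 h1
  · exact (h1 he).elim

theorem exists_valid (x n : ℕ) : ∃ τ, valid τ ∧ τ.length = n ∧ x ∈ cell τ := by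
  induction n with
  | zero => exact ⟨[], valid_nil, rfl, by rw [cell_nil]; trivial⟩
  | succ n ih =>
    obtain ⟨τ, h1, h2, h3⟩ := ih
    by_cases hg : good n
    · rcases hg.mem (x := x) with hx | hx
      · refine ⟨τ ++ [0], valid_append.2 ⟨h1, Or.inl ⟨by rwa [h2], Or.inl rfl⟩⟩, by simp [h2], ?_⟩
        rw [mem_cell_append, h2]
        exact ⟨h3, fun _ => hx, fun h => by simp at h⟩
      · refine ⟨τ ++ [1], valid_append.2 ⟨h1, Or.inl ⟨by rwa [h2], Or.inr rfl⟩⟩, by simp [h2], ?_⟩
        rw [mem_cell_append, h2]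
        exact ⟨h3, fun h => by simp at h, fun _ => hx⟩
    · refine ⟨τ ++ [2], valid_append.2 ⟨h1, Or.inr ⟨by rwa [h2], rfl⟩⟩, by simp [h2], ?_⟩
      rw [mem_cell_append, h2]
      exact ⟨h3, fun h => by simp at h, fun h => by simp at h⟩

theorem finite_valid (n : ℕ) : {τ : List ℕ | valid τ ∧ τ.length = n}.Finite := by
  induction n with
  | zero =>
    refine (Set.finite_singleton ([] : List ℕ)).subset ?_
    rintro τ ⟨-, h⟩
    exact List.length_eq_zero_iff.1 h
  | succ n ih =>
    have h1 : {τ : List ℕ | valid τ ∧ τ.length = n + 1} ⊆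
        (fun p : List ℕ × ℕ => p.1 ++ [p.2]) ''
          ({τ : List ℕ | valid τ ∧ τ.length = n} ×ˢ {b : ℕ | b ≤ 2}) := by
      rintro τ ⟨h, hl⟩
      induction τ using List.reverseRecOn with
      | nil => simp at hl
      | append_singleton τ b =>
        rw [valid_append] at h
        refine ⟨(τ, b), ⟨⟨h.1, by simpa using hl⟩, ?_⟩, rfl⟩
        rcases h.2 with ⟨-, rfl | rfl⟩ | ⟨-, rfl⟩ <;> simp
    exact ((ih.prod (Set.finite_le_nat 2)).image _).subset h1

theorem finite_valid_le (n : ℕ) : {τ : List ℕ | valid τ ∧ τ.length ≤ n}.Finite := by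
  have h : {τ : List ℕ | valid τ ∧ τ.length ≤ n} ⊆
      ⋃ m ∈ Set.Iic n, {τ : List ℕ | valid τ ∧ τ.length = m} := by
    rintro τ ⟨h1, h2⟩
    exact Set.mem_iUnion₂.2 ⟨τ.length, h2, h1, rfl⟩
  exact ((Set.finite_Iic n).biUnion fun m _ => finite_valid m).subset h

variable {A : Set ℕ}

theorem br_finite_of_atom {a : Set ℕ} (ha : AtomOf A a) :
    {τ | Br A τ ∧ ((cell τ ∩ a) \ A).Infinite}.Finite := by
  obtain ⟨h1, h2, h3⟩ := ha
  obtain ⟨e, he, he1, he2⟩ := exists_good h1
  refine (finite_valid_le e).subset ?_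
  rintro τ ⟨⟨hv, hg, hi1, hi2⟩, hinf⟩
  refine ⟨hv, ?_⟩
  by_contra hcon
  push Not at hcon
  have hsub : cell τ ⊆ a := by
    rcases cell_dich hv he hcon with h4 | h4
    · rwa [he1] at h4
    · rw [he2] at h4
      exfalso
      apply hinf
      have : (cell τ ∩ a) \ A = ∅ := by
        rw [Set.eq_empty_iff_forall_notMem]
        rintro x ⟨⟨hx, hxa⟩, -⟩
        exact h4 hx hxa
      rw [this]
      exact Set.finite_empty
  rcases h3 (cell τ ∩ W1 τ.length) ((rec_cell hv).inter hg.rec1)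
    (Set.inter_subset_left.trans hsub) with h4 | h4
  · exact hi1 h4
  · refine hi2 (h4.subset ?_)
    rintro x ⟨⟨hx, hx2⟩, hxA⟩
    exact ⟨⟨hsub hx, fun h => hg.not_mem h.2 hx2⟩, hxA⟩

theorem br_finite_of_iat {R : Set ℕ} (h : Iat A R) :
    {τ | Br A τ ∧ ((cell τ ∩ R) \ A).Infinite}.Finite := by
  obtain ⟨L, hL, hfin⟩ := h
  have h1 : {τ | Br A τ ∧ ((cell τ ∩ R) \ A).Infinite} ⊆
      ⋃ a ∈ {a | a ∈ L}, {τ | Br A τ ∧ ((cell τ ∩ a) \ A).Infinite} := by
    rintro τ ⟨hb, hinf⟩
    by_contra hcon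
    rw [Set.mem_iUnion₂] at hcon
    push Not at hcon
    have h2 : ∀ a ∈ {a | a ∈ L}, ((cell τ ∩ a) \ A).Finite := by
      intro a ha
      by_contra hni
      exact hcon a ha ⟨hb, hni⟩
    apply hinf
    refine (hfin.union ((L.finite_toSet).biUnion h2)).subset ?_
    rintro x ⟨⟨hx, hxR⟩, hxA⟩
    by_cases hxL : ∃ a ∈ L, x ∈ a
    · obtain ⟨a, ha, hxa⟩ := hxL
      exact Or.inr (Set.mem_iUnion₂.2 ⟨a, ha, ⟨hx, hxa⟩, hxA⟩)
    · exact Or.inl ⟨⟨hxR, hxA⟩, hxL⟩
  refine ((L.finite_toSet).biUnion fun a ha => ?_).subset h1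
  exact br_finite_of_atom (hL a ha)

theorem iat_of_br_finite {R : Set ℕ} (hR : Rec R)
    (h : {τ | Br A τ ∧ ((cell τ ∩ R) \ A).Infinite}.Finite) : Iat A R := by
  classical
  obtain ⟨e, he, he1, he2⟩ := exists_good hR
  -- a bound
  obtain ⟨N, hN1, hN2⟩ : ∃ N, e < N ∧ ∀ τ, Br A τ → ((cell τ ∩ R) \ A).Infinite →
      τ.length < N := by
    obtain ⟨M, hM⟩ := (h.image List.length).bddAbove
    refine ⟨max M e + 1, by omega, fun τ h1 h2 => ?_⟩
    have := hM ⟨τ, ⟨h1, h2⟩, rfl⟩
    omega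
  have key : ∀ τ, valid τ → τ.length = N → cell τ ⊆ R → (cell τ \ A).Infinite →
      AtomOf A (cell τ) := by
    intro τ hv hl hsub hinf
    have hext : ∀ m, N ≤ m → ∃ ρ, valid ρ ∧ ρ.length = m ∧ cell ρ ⊆ cell τ ∧
        ((cell τ \ cell ρ) \ A).Finite := by
      intro m hm
      induction m, hm using Nat.le_induction with
      | base => exact ⟨τ, hv, hl, subset_rfl, by rw [Set.sdiff_self]; simp⟩
      | succ m hm ih =>
        obtain ⟨ρ, h1, h2, h3, h4⟩ := ih
        by_cases hg : good m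
        · have hnb : ¬ Br A ρ := by
            intro hb
            have hi : ((cell ρ ∩ R) \ A).Infinite := by
              intro hfin
              apply hinf
              refine (h4.union hfin).subset ?_
              rintro x ⟨hx, hxA⟩
              by_cases hxρ : x ∈ cell ρ
              · exact Or.inr ⟨⟨hxρ, hsub hx⟩, hxA⟩
              · exact Or.inl ⟨⟨hx, hxρ⟩, hxA⟩
            have := hN2 ρ hb hi
            omega
          have hor : ((cell ρ ∩ W1 m) \ A).Finite ∨ ((cell ρ ∩ W2 m) \ A).Finite := by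
            by_contra hcon
            push Not at hcon
            exact hnb ⟨h1, by rwa [h2], by rw [h2]; exact hcon.1, by rw [h2]; exact hcon.2⟩
          rcases hor with hf | hf
          · refine ⟨ρ ++ [1], valid_append.2 ⟨h1, Or.inl ⟨by rwa [h2], Or.inr rfl⟩⟩, by simp [h2],
              ?_, ?_⟩
            · exact (cell_prefix (List.prefix_append _ _)).trans h3
            · refine (h4.union hf).subset ?_
              rintro x ⟨⟨hx, hxρ⟩, hxA⟩
              by_cases hx2 : x ∈ cell ρ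
              · right
                refine ⟨⟨hx2, ?_⟩, hxA⟩
                by_contra hx3
                apply hxρ
                rw [mem_cell_append, h2]
                exact ⟨hx2, fun h => by simp at h, fun _ => hg.mem.resolve_left hx3⟩
              · exact Or.inl ⟨⟨hx, hx2⟩, hxA⟩
          · refine ⟨ρ ++ [0], valid_append.2 ⟨h1, Or.inl ⟨by rwa [h2], Or.inl rfl⟩⟩, by simp [h2],
              ?_, ?_⟩
            · exact (cell_prefix (List.prefix_append _ _)).trans h3
            · refine (h4.union hf).subset ?_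
              rintro x ⟨⟨hx, hxρ⟩, hxA⟩
              by_cases hx2 : x ∈ cell ρ
              · right
                refine ⟨⟨hx2, ?_⟩, hxA⟩
                by_contra hx3
                apply hxρ
                rw [mem_cell_append, h2]
                exact ⟨hx2, fun _ => hg.mem.resolve_right hx3, fun h => by simp at h⟩
              · exact Or.inl ⟨⟨hx, hx2⟩, hxA⟩
        · refine ⟨ρ ++ [2], valid_append.2 ⟨h1, Or.inr ⟨by rwa [h2], rfl⟩⟩, by simp [h2], ?_, ?_⟩
          · exact (cell_prefix (List.prefix_append _ _)).trans h3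
          · refine h4.subset ?_
            rintro x ⟨⟨hx, hxρ⟩, hxA⟩
            refine ⟨⟨hx, fun hx2 => hxρ ?_⟩, hxA⟩
            rw [mem_cell_append]
            exact ⟨hx2, fun h => by simp at h, fun h => by simp at h⟩
    refine ⟨rec_cell hv, hinf, fun R' hR' hsub' => ?_⟩
    obtain ⟨n, hn, hn1, hn2⟩ := exists_good hR'
    obtain ⟨ρ, h1, h2, h3, h4⟩ := hext (max N (n + 1)) (le_max_left _ _)
    rcases cell_dich h1 hn (by omega) with h5 | h5
    · right
      rw [hn1] at h5
      refine h4.subset ?_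
      rintro x ⟨⟨hx, hxR⟩, hxA⟩
      exact ⟨⟨hx, fun h => hxR (h5 h)⟩, hxA⟩
    · left
      rw [hn2] at h5
      refine h4.subset ?_
      rintro x ⟨hx, hxA⟩
      exact ⟨⟨hsub' hx, fun h => h5 h hx⟩, hxA⟩
  have hfinN := finite_valid N
  refine ⟨(hfinN.toFinset.filter fun τ => cell τ ⊆ R ∧ (cell τ \ A).Infinite).toList.map cell,
    ?_, ?_⟩
  · intro a ha
    rw [List.mem_map] at ha
    obtain ⟨τ, hτ, rfl⟩ := ha
    rw [Finset.mem_toList, Finset.mem_filter, Set.Finite.mem_toFinset] at hτ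
    exact key τ hτ.1.1 hτ.1.2 hτ.2.1 hτ.2.2
  · have h1 : ((R \ A) \ {x | ∃ a ∈ (hfinN.toFinset.filter fun τ => cell τ ⊆ R ∧
        (cell τ \ A).Infinite).toList.map cell, x ∈ a}) ⊆
        ⋃ τ ∈ {τ : List ℕ | (valid τ ∧ τ.length = N) ∧ (cell τ \ A).Finite}, cell τ \ A := by
      rintro x ⟨⟨hxR, hxA⟩, hx⟩
      obtain ⟨τ, h1, h2, h3⟩ := exists_valid x N
      have hsub : cell τ ⊆ R := by
        rcases cell_dich h1 he (by omega) with h4 | h4
        · rwa [he1] at h4
        · rw [he2] at h4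
          exact (h4 h3 hxR).elim
      by_cases hfin : (cell τ \ A).Finite
      · exact Set.mem_iUnion₂.2 ⟨τ, ⟨⟨h1, h2⟩, hfin⟩, h3, hxA⟩
      · exfalso
        apply hx
        refine ⟨cell τ, List.mem_map.2 ⟨τ, ?_, rfl⟩, h3⟩
        rw [Finset.mem_toList, Finset.mem_filter, Set.Finite.mem_toFinset]
        exact ⟨⟨h1, h2⟩, hsub, hfin⟩
    refine (Set.Finite.biUnion (hfinN.subset ?_) ?_).subset h1
    · rintro τ ⟨h2, -⟩; exact h2
    · rintro τ ⟨-, h2⟩; exact h2

end Pool.Agent.Helper446.EL
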